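import Pool.Agent.Lib.MP_6fae94_lc.NFA

set_option autoImplicit false

namespace Pool.Agent.Lib.MP6fae94

/-- positions: base `6` digits `0` and `3` -/
def pos : ℕ → ℕ → ℕ
  | 0, _ => 0
  | c + 1, a => 3 * (a % 2) + 6 * pos c (a / 2)

theorem pos_succ (c a : ℕ) : pos (c + 1) a = 3 * (a % 2) + 6 * pos c (a / 2) := rfl

theorem pos_lt (c a : ℕ) : pos c a < 6 ^ c := by
  induction c generalizing a with
  | zero => simp [pos]
  | succ c ih =>
    have := ih (a / 2)
    rw [pos_succ, pow_succ]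
    omega

theorem pos_inj (c a a' : ℕ) (ha : a < 2 ^ c) (ha' : a' < 2 ^ c) (h : pos c a = pos c a') :
    a = a' := by
  induction c generalizing a a' with
  | zero => simp at ha ha'; omega
  | succ c ih =>
    rw [pos_succ, pos_succ] at h
    rw [pow_succ] at ha ha'
    have h1 : a % 2 = a' % 2 := by omega
    have h2 : pos c (a / 2) = pos c (a' / 2) := by omega
    have := ih _ _ (by omega) (by omega) h2
    omega

section
variable (L : ℕ → Bool → Prop)

theorem winS_iff (y : ℕ) : Win L (some Ph.S) y ↔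
    Win L (some Ph.S) (y / 6) ∨ (4 ≤ y % 6 ∧ Win L none (y / 6)) := by
  constructor
  · intro h
    cases h with
    | s1 _ h => exact Or.inl h
    | s2 _ h1 h2 => exact Or.inr ⟨h1, h2⟩
  · rintro (h | ⟨h1, h2⟩)
    · exact Win.s1 _ h
    · exact Win.s2 _ h1 h2

theorem winZ_iff (b : Bool) (y : ℕ) : Win L (some (Ph.Z b)) y ↔
    (y % 6 = 0 ∧ Win L (some (Ph.Z b)) (y / 6)) ∨ (y % 6 = 1 + b.toNat ∧ Win L none (y / 6)) ∨
      y % 6 = 4 + b.toNat := by
  constructor
  · intro h
    cases h with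
    | z0 _ _ h1 h2 => exact Or.inl ⟨h1, h2⟩
    | z1 _ _ h1 h2 => exact Or.inr (Or.inl ⟨h1, h2⟩)
    | z2 _ _ h1 => exact Or.inr (Or.inr h1)
  · rintro (⟨h1, h2⟩ | ⟨h1, h2⟩ | h1)
    · exact Win.z0 _ _ h1 h2
    · exact Win.z1 _ _ h1 h2
    · exact Win.z2 _ _ h1

theorem winV_iff (y : ℕ) : Win L none y ↔
    ∃ p b, p ≤ y ∧ L p b ∧ Win L (some (Ph.Z b)) (y - p) := by
  constructor
  · intro h
    cases h with
    | v _ p b h1 h2 h3 => exact ⟨p, b, h1, h2, h3⟩
  · rintro ⟨p, b, h1, h2, h3⟩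
    exact Win.v _ p b h1 h2 h3

theorem win_zero (ψ : Option Ph) (y : ℕ) (h : Win L ψ y) : y ≠ 0 := by
  induction h with
  | s1 y _ ih => omega
  | s2 y h4 _ _ => omega
  | v y p b hp _ _ ih => omega
  | z0 b y _ _ ih => omega
  | z1 b y h _ _ => omega
  | z2 b y h => omega

theorem toNat_le (b : Bool) : b.toNat ≤ 1 := by cases b <;> simp

theorem toNat_inj (b b' : Bool) (h : b.toNat = b'.toNat) : b = b' := by
  revert h; cases b <;> cases b' <;> simp

theorem S_pos (c a Y : ℕ) :
    Win L (some Ph.S) (pos c a + 6 ^ c * Y) ↔ Win L (some Ph.S) Y := by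
  induction c generalizing a with
  | zero => simp [pos]
  | succ c ih =>
    have e : pos (c + 1) a + 6 ^ (c + 1) * Y =
        3 * (a % 2) + 6 * (pos c (a / 2) + 6 ^ c * Y) := by
      rw [pos_succ, pow_succ]; ring
    rw [e, winS_iff]
    set X := pos c (a / 2) + 6 ^ c * Y
    have h1 : (3 * (a % 2) + 6 * X) / 6 = X := by omega
    have h2 : ¬ (4 ≤ (3 * (a % 2) + 6 * X) % 6) := by omega
    rw [h1, ← ih (a / 2)]
    constructor
    · rintro (h | ⟨h, _⟩)
      · exact h
      · exact absurd h h2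
    · intro h; exact Or.inl h

theorem Z_shift (b : Bool) (c Y : ℕ) :
    Win L (some (Ph.Z b)) (6 ^ c * Y) ↔ Win L (some (Ph.Z b)) Y := by
  induction c with
  | zero => simp
  | succ c ih =>
    have e : 6 ^ (c + 1) * Y = 6 * (6 ^ c * Y) := by rw [pow_succ]; ring
    rw [e, winZ_iff]
    set X := 6 ^ c * Y
    have h1 : (6 * X) / 6 = X := by omega
    have h2 : (6 * X) % 6 = 0 := by omega
    rw [h1, h2, ← ih]
    constructor
    · rintro (⟨_, h⟩ | ⟨h, _⟩ | h)
      · exact h
      · omega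
      · omega
    · intro h; exact Or.inl ⟨rfl, h⟩

theorem Z_bad (b : Bool) (c a a' Y : ℕ) (ha : a < 2 ^ c) (ha' : a' < 2 ^ c) (hne : a ≠ a')
    (hle : pos c a' ≤ pos c a + 6 ^ c * Y) :
    ¬ Win L (some (Ph.Z b)) (pos c a + 6 ^ c * Y - pos c a') := by
  have hb := toNat_le b
  induction c generalizing a a' with
  | zero => simp at ha ha'; omega
  | succ c ih =>
    have e : pos (c + 1) a + 6 ^ (c + 1) * Y =
        3 * (a % 2) + 6 * (pos c (a / 2) + 6 ^ c * Y) := by
      rw [pos_succ, pow_succ]; ring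
    rw [pow_succ] at ha ha'
    have ih' := ih (a / 2) (a' / 2) (by omega) (by omega)
    rw [e] at hle ⊢
    rw [pos_succ] at hle ⊢
    set X := pos c (a / 2) + 6 ^ c * Y
    set X' := pos c (a' / 2)
    rw [winZ_iff]
    by_cases h2 : a % 2 = a' % 2
    · have h3 : a / 2 ≠ a' / 2 := by omega
      have h4 : X' ≤ X := by omega
      have h5 := ih' h3 h4
      have h6 : (3 * (a % 2) + 6 * X - (3 * (a' % 2) + 6 * X')) / 6 = X - X' := by omega
      have h7 : (3 * (a % 2) + 6 * X - (3 * (a' % 2) + 6 * X')) % 6 = 0 := by omega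
      rw [h6, h7]
      rintro (⟨_, h⟩ | ⟨h, _⟩ | h)
      · exact h5 h
      · omega
      · omega
    · rintro (⟨h, _⟩ | ⟨h, _⟩ | h) <;> omega

/-- the letters of the word of `r` -/
def LR (c : ℕ) (r : ℕ → Bool) : ℕ → Bool → Prop := fun p b => ∃ a < 2 ^ c, p = pos c a ∧ r a = b

theorem V_pos (c : ℕ) (r : ℕ → Bool) (a Y : ℕ) (ha : a < 2 ^ c) :
    Win (LR c r) none (pos c a + 6 ^ c * Y) ↔ Win (LR c r) (some (Ph.Z (r a))) Y := by
  rw [winV_iff]
  constructor
  · rintro ⟨p, b, h1, ⟨a', ha', rfl, rfl⟩, h3⟩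
    by_cases hne : a = a'
    · subst hne
      have : pos c a + 6 ^ c * Y - pos c a = 6 ^ c * Y := by omega
      rw [this, Z_shift] at h3
      exact h3
    · exact absurd h3 (Z_bad _ _ c a a' Y ha ha' hne h1)
  · intro h
    refine ⟨pos c a, r a, by omega, ⟨a, ha, rfl, rfl⟩, ?_⟩
    have : pos c a + 6 ^ c * Y - pos c a = 6 ^ c * Y := by omega
    rw [this, Z_shift]
    exact h

/-- the code of the last `k` blocks of a clause -/
def cl (c : ℕ) (b : ℕ → Bool) : ℕ → ℕ → ℕ
  | 0, X => X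
  | k + 1, X => pos c (2 ^ c - (k + 1)) + 6 ^ c *
      ((1 + (b (2 ^ c - (k + 1))).toNat + (if k = 0 then 3 else 0)) + 6 * cl c b k X)

theorem cl_succ (c : ℕ) (b : ℕ → Bool) (k X : ℕ) : cl c b (k + 1) X =
    pos c (2 ^ c - (k + 1)) + 6 ^ c *
      ((1 + (b (2 ^ c - (k + 1))).toNat + (if k = 0 then 3 else 0)) + 6 * cl c b k X) := rfl

theorem S_cl (c : ℕ) (b : ℕ → Bool) (k X : ℕ) : Win L (some Ph.S) (cl c b (k + 1) X) ↔
    (Win L (some Ph.S) X ∨ Win L none X) := by
  induction k with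
  | zero =>
    rw [cl_succ, S_pos, winS_iff]
    have hb := toNat_le (b (2 ^ c - (0 + 1)))
    simp only [cl, if_true]
    have h1 : ((1 + (b (2 ^ c - (0 + 1))).toNat + 3) + 6 * X) / 6 = X := by omega
    have h2 : 4 ≤ ((1 + (b (2 ^ c - (0 + 1))).toNat + 3) + 6 * X) % 6 := by omega
    rw [h1]
    constructor
    · rintro (h | ⟨_, h⟩)
      · exact Or.inl h
      · exact Or.inr h
    · rintro (h | h)
      · exact Or.inl h
      · exact Or.inr ⟨h2, h⟩
  | succ k ih =>
    rw [cl_succ, S_pos, winS_iff, ← ih]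
    have hb := toNat_le (b (2 ^ c - (k + 1 + 1)))
    set X' := cl c b (k + 1) X
    rw [if_neg (by omega)]
    have h1 : ((1 + (b (2 ^ c - (k + 1 + 1))).toNat + 0) + 6 * X') / 6 = X' := by omega
    have h2 : ¬ (4 ≤ ((1 + (b (2 ^ c - (k + 1 + 1))).toNat + 0) + 6 * X') % 6) := by omega
    rw [h1]
    constructor
    · rintro (h | ⟨h, _⟩)
      · exact h
      · exact absurd h h2
    · intro h; exact Or.inl h

theorem V_cl (c : ℕ) (r b : ℕ → Bool) (k X : ℕ) (hk : k + 1 ≤ 2 ^ c) :
    Win (LR c r) none (cl c b (k + 1) X) ↔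
      ∀ a, 2 ^ c - (k + 1) ≤ a → a < 2 ^ c → r a = b a := by
  induction k with
  | zero =>
    rw [cl_succ, V_pos c r _ _ (by omega), winZ_iff]
    have hb := toNat_le (b (2 ^ c - (0 + 1)))
    have hr := toNat_le (r (2 ^ c - (0 + 1)))
    simp only [cl, if_true]
    have h2 : ((1 + (b (2 ^ c - (0 + 1))).toNat + 3) + 6 * X) % 6 =
      4 + (b (2 ^ c - (0 + 1))).toNat := by omega
    rw [h2]
    constructor
    · rintro (⟨h, _⟩ | ⟨h, _⟩ | h)
      · omega
      · omega
      · intro a h3 h4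
        have : a = 2 ^ c - (0 + 1) := by omega
        rw [this]
        exact (toNat_inj _ _ (by omega)).symm
    · intro h
      right; right
      rw [h (2 ^ c - (0 + 1)) le_rfl (by omega)]
  | succ k ih =>
    rw [cl_succ, V_pos c r _ _ (by omega), winZ_iff]
    have ih' := ih (by omega)
    have hb := toNat_le (b (2 ^ c - (k + 1 + 1)))
    have hr := toNat_le (r (2 ^ c - (k + 1 + 1)))
    set X' := cl c b (k + 1) X
    rw [if_neg (by omega)]
    have h1 : ((1 + (b (2 ^ c - (k + 1 + 1))).toNat + 0) + 6 * X') / 6 = X' := by omega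
    have h2 : ((1 + (b (2 ^ c - (k + 1 + 1))).toNat + 0) + 6 * X') % 6 =
      1 + (b (2 ^ c - (k + 1 + 1))).toNat := by omega
    rw [h1, h2, ih']
    constructor
    · rintro (⟨h, _⟩ | ⟨h, h3⟩ | h)
      · omega
      · intro a h4 h5
        by_cases h6 : a = 2 ^ c - (k + 1 + 1)
        · rw [h6]
          exact (toNat_inj _ _ (by omega)).symm
        · exact h3 a (by omega) h5
      · omega
    · intro h
      right; left
      refine ⟨?_, fun a h4 h5 => h a (by omega) h5⟩
      rw [h (2 ^ c - (k + 1 + 1)) le_rfl (by omega)]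

/-- the code of a list of clauses -/
def code (c : ℕ) : List (ℕ → Bool) → ℕ
  | [] => 0
  | b :: l => cl c b (2 ^ c) (code c l)

theorem code_iff (c : ℕ) (r : ℕ → Bool) (l : List (ℕ → Bool)) :
    (Win (LR c r) (some Ph.S) (code c l) ∨ Win (LR c r) none (code c l)) ↔
      ∃ b ∈ l, ∀ a < 2 ^ c, r a = b a := by
  induction l with
  | nil =>
    simp only [code, List.not_mem_nil, false_and, exists_false, iff_false, not_or]
    exact ⟨fun h => win_zero _ _ _ h rfl, fun h => win_zero _ _ _ h rfl⟩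
  | cons b l ih =>
    have hpos : 0 < 2 ^ c := by positivity
    obtain ⟨k, hk⟩ : ∃ k, 2 ^ c = k + 1 := ⟨2 ^ c - 1, by omega⟩
    have e : code c (b :: l) = cl c b (k + 1) (code c l) := by
      rw [← hk]; rfl
    rw [e, S_cl, V_cl c r b k _ (by omega), ih]
    simp only [List.mem_cons, exists_eq_or_imp]
    have h1 : 2 ^ c - (k + 1) = 0 := by omega
    rw [h1]
    constructor
    · rintro (h | h)
      · exact Or.inr h
      · exact Or.inl fun a ha => h a (Nat.zero_le _) ha
    · rintro (h | h)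
      · exact Or.inr fun a _ ha => h a ha
      · exact Or.inl h

end

/-- the letter at distance `p` -/
noncomputable def ltr (c : ℕ) (r : ℕ → Bool) (p : ℕ) : Ltr :=
  open Classical in
  if h : ∃ a < 2 ^ c, p = pos c a then bl (r (Classical.choose h)) else Ltr.blank

theorem ltr_iff (c : ℕ) (r : ℕ → Bool) (p : ℕ) (b : Bool) :
    ltr c r p = bl b ↔ LR c r p b := by
  unfold ltr LR
  split_ifs with h
  · obtain ⟨h1, h2⟩ := Classical.choose_spec h
    set a0 := Classical.choose h
    constructor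
    · intro h3
      refine ⟨a0, h1, h2, ?_⟩
      revert h3
      cases r a0 <;> cases b <;> simp [bl]
    · rintro ⟨a, h3, h4, h5⟩
      have : a0 = a := pos_inj c _ _ h1 h3 (h2.symm.trans h4)
      rw [this, h5]
  · constructor
    · intro h3
      revert h3
      cases b <;> simp [bl]
    · rintro ⟨a, h3, h4, h5⟩
      exact absurd ⟨a, h3, h4⟩ h

theorem ltr_ne (c : ℕ) (r : ℕ → Bool) (p : ℕ) : ltr c r p ≠ Ltr.hash := by
  unfold ltr
  split_ifs with h
  · cases r (Classical.choose h) <;> simp [bl]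
  · simp

/-- the word of `r` -/
noncomputable def enc (c : ℕ) (r : ℕ → Bool) : List Ltr :=
  List.ofFn (fun i : Fin (6 ^ c) => ltr c r (6 ^ c - 1 - i.val))

theorem enc_len (c : ℕ) (r : ℕ → Bool) : (enc c r).length = 6 ^ c := by
  simp [enc]

theorem enc_get (c : ℕ) (r : ℕ → Bool) (x : ℤ) (h1 : -((6 ^ c : ℕ) : ℤ) ≤ x) (h2 : x < 0) :
    wl (enc c r) x = Sum.inr (ltr c r (-1 - x).toNat) := by
  unfold wl
  rw [enc_len, if_neg (by omega), List.getElem?_eq_getElem (by rw [enc_len]; omega)]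
  unfold enc
  rw [List.getElem_ofFn]
  have : 6 ^ c - 1 - (x + ((6 ^ c : ℕ) : ℤ)).toNat = (-1 - x).toNat := by omega
  simp only [this]
  rfl

theorem enc_tape (c : ℕ) (r : ℕ → Bool) (N : ℕ) :
    Tape (tp (wl (enc c r)) Ltr.hash Ltr.z N) (6 ^ c) N (LR c r) where
  hash x := by
    constructor
    · intro h
      unfold tp at h
      split_ifs at h with h1 h2 h3
      · by_cases h4 : -((6 ^ c : ℕ) : ℤ) ≤ x
        · rw [enc_get c r x h4 h1] at h
          exact absurd (Sum.inr_injective h) (ltr_ne c r _)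
        · unfold wl at h
          rw [enc_len, if_pos (by omega)] at h
          simp at h
      · exact h2
      · simp at h
    · rintro rfl
      simp [tp]
  right x := by
    constructor
    · intro h
      unfold tp at h
      split_ifs at h with h1 h2 h3
      · by_cases h4 : -((6 ^ c : ℕ) : ℤ) ≤ x
        · rw [enc_get c r x h4 h1] at h
          simp at h
        · unfold wl at h
          rw [enc_len, if_pos (by omega)] at h
          simp at h
      · omega
    · intro h
      unfold tp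
      rw [if_neg (by omega), if_neg (by omega), if_neg (by omega)]
  let1 p b := by
    unfold tp
    rw [if_pos (by omega)]
    by_cases h4 : -((6 ^ c : ℕ) : ℤ) ≤ -1 - (p : ℤ)
    · rw [enc_get c r _ h4 (by omega)]
      have : (-1 - (-1 - (p : ℤ))).toNat = p := by omega
      rw [this, ← ltr_iff]
      exact ⟨fun h => Sum.inr_injective h, fun h => by rw [h]⟩
    · unfold wl
      rw [enc_len, if_pos (by omega)]
      constructor
      · intro h; simp at h
      · rintro ⟨a, h3, h4', h5⟩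
        have := pos_lt c a
        omega
  let2 p b h := by
    obtain ⟨a, h3, rfl, h5⟩ := h
    exact pos_lt c a

/-- extension of a function on `Fin (2 ^ c)` -/
def ext (c : ℕ) (r : Fin (2 ^ c) → Bool) (a : ℕ) : Bool :=
  if h : a < 2 ^ c then r ⟨a, h⟩ else false

theorem ext_iff (c : ℕ) (r b : Fin (2 ^ c) → Bool) :
    (∀ a < 2 ^ c, ext c r a = ext c b a) ↔ r = b := by
  constructor
  · intro h
    funext a
    have := h a.val a.isLt
    simpa [ext] using this
  · rintro rfl a _
    rfl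

theorem upper (c : ℕ) (FF : Finset (Fin (2 ^ c) → Bool)) (r : Fin (2 ^ c) → Bool) :
    AccZ del St.I0 {St.acc}
      (tp (wl (enc c (ext c r))) Ltr.hash Ltr.z (code c (FF.toList.map (ext c))))
      (-((6 ^ c : ℕ) : ℤ) - 1) (((code c (FF.toList.map (ext c)) : ℕ) : ℤ) + 1) ↔ r ∈ FF := by
  rw [nfa_iff _ (6 ^ c) _ _ (enc_tape c (ext c r) _), code_iff]
  constructor
  · rintro ⟨b, hb, h⟩
    rw [List.mem_map] at hb
    obtain ⟨b', hb', rfl⟩ := hb
    rw [ext_iff] at h
    rw [h]
    exact Finset.mem_toList.1 hb'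
  · intro h
    exact ⟨ext c r, List.mem_map.2 ⟨r, Finset.mem_toList.2 h, rfl⟩, fun a _ => rfl⟩

end Pool.Agent.Lib.MP6fae94
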