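import Pool.Agent.Lib.MP_6fae94_lc.Defs

set_option autoImplicit false

namespace Pool.Agent.Lib.MP6fae94

section
variable {Q A : Type}

/-- symbols agree -/
theorem sym_eq (w : List A) (h z : A) (N p : ℕ) (hp : p ≤ w.length + N + 2) :
    (if p = 0 then (Sum.inl false : Bool ⊕ A)
      else ((w ++ h :: List.replicate N z)[p - 1]?).elim (Sum.inl true) Sum.inr) =
    tp (wl w) h z N ((p : ℤ) - (w.length + 1)) := by
  unfold tp wl
  rcases Nat.eq_zero_or_pos p with rfl | hp0
  · have h1 : ((0 : ℕ) : ℤ) - ((w.length : ℤ) + 1) < 0 := by push_cast; omega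
    have h2 : ((0 : ℕ) : ℤ) - ((w.length : ℤ) + 1) < -(w.length : ℤ) := by push_cast; omega
    rw [if_pos rfl, if_pos h1, if_pos h2]
  · rw [if_neg (by omega)]
    rcases lt_trichotomy p (w.length + 1) with hlt | heq | hgt
    · have h1 : (p : ℤ) - ((w.length : ℤ) + 1) < 0 := by omega
      have h2 : ¬ ((p : ℤ) - ((w.length : ℤ) + 1) < -(w.length : ℤ)) := by omega
      rw [if_pos h1, if_neg h2]
      have h3 : ((p : ℤ) - ((w.length : ℤ) + 1) + (w.length : ℤ)).toNat = p - 1 := by omega
      rw [h3, List.getElem?_append_left (by omega)]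
    · have h1 : ¬ ((p : ℤ) - ((w.length : ℤ) + 1) < 0) := by omega
      have h2 : ((p : ℤ) - ((w.length : ℤ) + 1) = 0) := by omega
      rw [if_neg h1, if_pos h2, List.getElem?_append_right (by omega)]
      have h3 : p - 1 - w.length = 0 := by omega
      rw [h3]
      rfl
    · have h1 : ¬ ((p : ℤ) - ((w.length : ℤ) + 1) < 0) := by omega
      have h2 : ¬ ((p : ℤ) - ((w.length : ℤ) + 1) = 0) := by omega
      rw [if_neg h1, if_neg h2, List.getElem?_append_right (by omega)]
      obtain ⟨j, hj⟩ : ∃ j, p - 1 - w.length = j + 1 := ⟨p - 1 - w.length - 1, by omega⟩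
      rw [hj, List.getElem?_cons_succ]
      by_cases h4 : (p : ℤ) - ((w.length : ℤ) + 1) ≤ (N : ℤ)
      · rw [if_pos h4, List.getElem?_replicate_of_lt (by omega)]
        rfl
      · rw [if_neg h4, List.getElem?_eq_none (by simp; omega)]
        rfl

/-- the standard format and integer coordinates -/
theorem conv (δ : Trans Q A) (q0 : Q) (F : Set Q) (w : List A) (h z : A) (N : ℕ) :
    AccN δ q0 F (w ++ h :: List.replicate N z) ↔
      AccZ δ q0 F (tp (wl w) h z N) (-(w.length : ℤ) - 1) (N + 1) := by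
  set u := w ++ h :: List.replicate N z with hu
  have hul : u.length = w.length + N + 1 := by
    rw [hu]; simp; omega
  set RN : (Q × (Fin 2 → ℕ)) → (Q × (Fin 2 → ℕ)) → Prop :=
    (fun c c' : Q × (Fin 2 → ℕ) =>
        ∃ d : Fin 2 → Fin 3,
          (c'.1, d) ∈ δ c.1 (fun i =>
            if c.2 i = 0 then (Sum.inl false : Bool ⊕ A)
            else (u[c.2 i - 1]?).elim (Sum.inl true) Sum.inr) ∧
          ∀ i, c'.2 i + 1 = c.2 i + (d i).val ∧ c'.2 i ≤ u.length + 1) with hRN
  set RZ := ZS δ (tp (wl w) h z N) (-(w.length : ℤ) - 1) (N + 1) with hRZ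
  let φ : (Q × (Fin 2 → ℕ)) → (Q × (Fin 2 → ℤ)) :=
    fun c => (c.1, fun i => (c.2 i : ℤ) - (w.length + 1))
  have hstep : ∀ c c', (∀ i, c.2 i ≤ u.length + 1) → (RN c c' → RZ (φ c) (φ c')) := by
    rintro c c' hc ⟨d, hd1, hd2⟩
    refine ⟨d, ?_, fun i => ?_⟩
    · have : (fun i => tp (wl w) h z N ((φ c).2 i)) = (fun i =>
            if c.2 i = 0 then (Sum.inl false : Bool ⊕ A)
            else (u[c.2 i - 1]?).elim (Sum.inl true) Sum.inr) := by
        funext i
        exact (sym_eq w h z N (c.2 i) (by have := hc i; omega)).symm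
      rw [this]
      exact hd1
    · have := hd2 i
      simp only [φ]
      omega
  have hstep' : ∀ c y, (∀ i, c.2 i ≤ u.length + 1) → RZ (φ c) y →
      ∃ c', y = φ c' ∧ RN c c' := by
    rintro c y hc ⟨d, hd1, hd2⟩
    refine ⟨(y.1, fun i => (y.2 i + (w.length + 1)).toNat), ?_, d, ?_, fun i => ?_⟩
    · ext i
      · rfl
      · have := hd2 i
        simp only [φ]
        omega
    · have : (fun i => tp (wl w) h z N ((φ c).2 i)) = (fun i =>
            if c.2 i = 0 then (Sum.inl false : Bool ⊕ A)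
            else (u[c.2 i - 1]?).elim (Sum.inl true) Sum.inr) := by
        funext i
        exact (sym_eq w h z N (c.2 i) (by have := hc i; omega)).symm
      rw [this] at hd1
      exact hd1
    · have := hd2 i
      simp only [φ] at this
      simp only
      omega
  have hstart : φ (q0, fun _ => 0) = (q0, fun _ => -(w.length : ℤ) - 1) := by
    ext i
    · rfl
    · simp only [φ]; push_cast; omega
  have hinv : ∀ c, Relation.ReflTransGen RN (q0, fun _ => 0) c →
      (∀ i, c.2 i ≤ u.length + 1) := by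
    intro c hc
    induction hc with
    | refl => intro i; simp
    | tail _ h2 _ =>
      obtain ⟨d, _, hd2⟩ := h2
      exact fun i => (hd2 i).2
  constructor
  · rintro ⟨q, hq, p, hp⟩
    refine ⟨q, hq, (φ (q, p)).2, ?_⟩
    have key : ∀ c, Relation.ReflTransGen RN (q0, fun _ => 0) c →
        Relation.ReflTransGen RZ (φ (q0, fun _ => 0)) (φ c) := by
      intro c hc
      induction hc with
      | refl => exact Relation.ReflTransGen.refl
      | tail h1 h2 ih => exact ih.tail (hstep _ _ (hinv _ h1) h2)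
    have := key _ hp
    rw [hstart] at this
    exact this
  · rintro ⟨q, hq, x, hx⟩
    have key : ∀ y, Relation.ReflTransGen RZ (φ (q0, fun _ => 0)) y →
        ∃ c, y = φ c ∧ Relation.ReflTransGen RN (q0, fun _ => 0) c := by
      intro y hy
      induction hy with
      | refl => exact ⟨_, rfl, Relation.ReflTransGen.refl⟩
      | tail h1 h2 ih =>
        obtain ⟨c, rfl, hc⟩ := ih
        obtain ⟨c', rfl, hc'⟩ := hstep' c _ (hinv _ hc) h2
        exact ⟨c', rfl, hc.tail hc'⟩
    rw [← hstart] at hx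
    obtain ⟨c, hc1, hc2⟩ := key _ hx
    refine ⟨c.1, ?_, c.2, hc2⟩
    have : q = c.1 := congrArg Prod.fst hc1
    rw [← this]; exact hq

end

end Pool.Agent.Lib.MP6fae94
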