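import Mathlib

set_option autoImplicit false

namespace Pool.Agent.Lib.MP6fae94

/-- the transition type of a two-head automaton -/
abbrev Trans (Q A : Type) : Type := Q → (Fin 2 → Bool ⊕ A) → Set (Q × (Fin 2 → Fin 3))

/-- acceptance, in the format of the frozen statement, for `k = 2` -/
def AccN {Q A : Type} (δ : Trans Q A) (q0 : Q) (F : Set Q) (u : List A) : Prop :=
  ∃ q ∈ F, ∃ p : Fin 2 → ℕ,
    Relation.ReflTransGen
      (fun c c' : Q × (Fin 2 → ℕ) =>
        ∃ d : Fin 2 → Fin 3,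
          (c'.1, d) ∈ δ c.1 (fun i =>
            if c.2 i = 0 then (Sum.inl false : Bool ⊕ A)
            else (u[c.2 i - 1]?).elim (Sum.inl true) Sum.inr) ∧
          ∀ i, c'.2 i + 1 = c.2 i + (d i).val ∧ c'.2 i ≤ u.length + 1)
      (q0, fun _ => 0) (q, p)

/-- one step, integer coordinates, tape `T`, range `[lo, hi]` -/
def ZS {Q A : Type} (δ : Trans Q A) (T : ℤ → Bool ⊕ A) (lo hi : ℤ)
    (c c' : Q × (Fin 2 → ℤ)) : Prop :=
  ∃ d : Fin 2 → Fin 3, (c'.1, d) ∈ δ c.1 (fun i => T (c.2 i)) ∧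
    ∀ i, c'.2 i + 1 = c.2 i + ((d i).val : ℤ) ∧ lo ≤ c'.2 i ∧ c'.2 i ≤ hi

/-- acceptance in integer coordinates -/
def AccZ {Q A : Type} (δ : Trans Q A) (q0 : Q) (F : Set Q) (T : ℤ → Bool ⊕ A)
    (lo hi : ℤ) : Prop :=
  ∃ q ∈ F, ∃ x : Fin 2 → ℤ, Relation.ReflTransGen (ZS δ T lo hi) (q0, fun _ => lo) (q, x)

/-- the tape: `W` at negative positions, `h` at `0`, `z` at `1..N`, right marker beyond -/
def tp {A : Type} (W : ℤ → Bool ⊕ A) (h z : A) (N : ℕ) (x : ℤ) : Bool ⊕ A :=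
  if x < 0 then W x else if x = 0 then Sum.inr h else if x ≤ N then Sum.inr z else Sum.inl true

/-- the negative part of the tape given by a word -/
def wl {A : Type} (w : List A) (x : ℤ) : Bool ⊕ A :=
  if x < -(w.length : ℤ) then Sum.inl false
  else (w[(x + w.length).toNat]?).elim (Sum.inl true) Sum.inr

/-- the letters -/
inductive Ltr
  | zero | one | blank | hash | z
  deriving DecidableEq, Fintype

end Pool.Agent.Lib.MP6fae94
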