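import Pool.Agent.Lib.MP_6fae94_lc.Mid

set_option autoImplicit false

namespace Pool.Agent.Lib.MP6fae94

section
variable {Q A : Type}

/-- moves that stay on the tape -/
def good (s : Fin 2 → Bool ⊕ A) (d : Fin 2 → Fin 3) : Prop :=
  ∀ i, (s i = Sum.inl false → d i ≠ 0) ∧ (s i = Sum.inl true → d i ≠ 2)

open Classical in
/-- the total transition function -/
noncomputable def dtr (δ : Trans Q A) (F : Set Q) (q : Q) (s : Fin 2 → Bool ⊕ A) :
    Q × (Fin 2 → ℤ) :=
  if q ∈ F then (q, 0)
  else if h : ∃ p ∈ δ q s, good s p.2 then
    ((Classical.choose h).1, fun i => (((Classical.choose h).2 i).val : ℤ) - 1)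
  else (q, 0)

theorem dtr_cases (δ : Trans Q A) (F : Set Q) (q : Q) (s : Fin 2 → Bool ⊕ A) :
    dtr δ F q s = (q, 0) ∨ ∃ p ∈ δ q s, good s p.2 ∧
      dtr δ F q s = (p.1, fun i => ((p.2 i).val : ℤ) - 1) := by
  unfold dtr
  by_cases h1 : q ∈ F
  · left; rw [if_pos h1]
  · by_cases h2 : ∃ p ∈ δ q s, good s p.2
    · right
      refine ⟨Classical.choose h2, (Classical.choose_spec h2).1, (Classical.choose_spec h2).2, ?_⟩
      rw [if_neg h1, dif_pos h2]
    · left; rw [if_neg h1, dif_neg h2]

/-- the total machine -/
noncomputable def dm (δ : Trans Q A) (F : Set Q) : DM Q A where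
  tr := dtr δ F
  acc := F
  mv q s i := by
    rcases dtr_cases δ F q s with h | ⟨p, _, _, h⟩
    · rw [h]; simp
    · rw [h, abs_le]
      have := (p.2 i).isLt
      simp only
      constructor <;> omega
  noL q s i hs := by
    rcases dtr_cases δ F q s with h | ⟨p, _, hg, h⟩
    · rw [h]; simp
    · rw [h]
      have h1 := (hg i).1 hs
      have h2 : (p.2 i).val ≠ 0 := fun h => h1 (Fin.ext h)
      simp only
      omega
  noR q s i hs := by
    rcases dtr_cases δ F q s with h | ⟨p, _, hg, h⟩
    · rw [h]; simp
    · rw [h]
      have h1 := (hg i).2 hs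
      have h2 : (p.2 i).val ≠ 2 := fun h => h1 (Fin.ext h)
      have := (p.2 i).isLt
      simp only
      omega
  ab q hq s := by
    unfold dtr
    rw [if_pos hq]

theorem det_iff (δ : Trans Q A) (hδ : ∀ q s, (δ q s).Subsingleton) (q0 : Q) (F : Set Q)
    (T : ℤ → Bool ⊕ A) (lo hi : ℤ) (hlh : lo ≤ hi)
    (h1 : ∀ x, lo ≤ x → x ≤ hi → (T x = Sum.inl false ↔ x = lo))
    (h2 : ∀ x, lo ≤ x → x ≤ hi → (T x = Sum.inl true ↔ x = hi)) :
    AccZ δ q0 F T lo hi ↔
      ∃ t, ((stp (dm δ F) T)^[t] (q0, fun _ => lo)).1 ∈ (dm δ F).acc := by
  have hinv : ∀ t i, lo ≤ ((stp (dm δ F) T)^[t] (q0, fun _ => lo)).2 i ∧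
      ((stp (dm δ F) T)^[t] (q0, fun _ => lo)).2 i ≤ hi := by
    intro t
    induction t with
    | zero => intro i; exact ⟨le_rfl, hlh⟩
    | succ t ih =>
      intro i
      rw [Function.iterate_succ_apply']
      set b := (stp (dm δ F) T)^[t] (q0, fun _ => lo)
      have h3 := ih i
      have h4 := abs_le.1 ((dm δ F).mv b.1 (fun i => T (b.2 i)) i)
      simp only [stp]
      constructor
      · rcases eq_or_lt_of_le h3.1 with h5 | h5
        · have := (dm δ F).noL b.1 (fun i => T (b.2 i)) i ((h1 _ h3.1 h3.2).2 h5.symm)
          omega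
        · omega
      · rcases eq_or_lt_of_le h3.2 with h5 | h5
        · have := (dm δ F).noR b.1 (fun i => T (b.2 i)) i ((h2 _ h3.1 h3.2).2 h5)
          omega
        · omega
  constructor
  · rintro ⟨q, hq, x, hx⟩
    have key : ∀ c, Relation.ReflTransGen (ZS δ T lo hi) (q0, fun _ => lo) c →
        (∃ t, ((stp (dm δ F) T)^[t] (q0, fun _ => lo)).1 ∈ F) ∨
        ∃ t, (stp (dm δ F) T)^[t] (q0, fun _ => lo) = c := by
      intro c hc
      induction hc with
      | refl => right; exact ⟨0, rfl⟩
      | @tail b c _ hbc ih =>
        rcases ih with ih | ⟨t, ht⟩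
        · left; exact ih
        · by_cases hb : b.1 ∈ F
          · left; exact ⟨t, by rw [ht]; exact hb⟩
          · right
            refine ⟨t + 1, ?_⟩
            rw [Function.iterate_succ_apply', ht]
            obtain ⟨d, hd1, hd2⟩ := hbc
            have hrange : ∀ i, lo ≤ b.2 i ∧ b.2 i ≤ hi := by rw [← ht]; exact hinv t
            have hg : good (fun i => T (b.2 i)) d := by
              intro i
              have h3 := hd2 i
              have h4 := hrange i
              constructor
              · intro h5 h6
                have h7 := (h1 _ h4.1 h4.2).1 h5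
                rw [h6] at h3
                simp at h3
                omega
              · intro h5 h6
                have h7 := (h2 _ h4.1 h4.2).1 h5
                rw [h6] at h3
                simp at h3
                omega
            have hex : ∃ p ∈ δ b.1 (fun i => T (b.2 i)), good (fun i => T (b.2 i)) p.2 :=
              ⟨(c.1, d), hd1, hg⟩
            have hch : Classical.choose hex = (c.1, d) :=
              hδ _ _ (Classical.choose_spec hex).1 hd1
            have htr : (dm δ F).tr b.1 (fun i => T (b.2 i)) =
                (c.1, fun i => ((d i).val : ℤ) - 1) := by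
              show dtr δ F b.1 (fun i => T (b.2 i)) = _
              unfold dtr
              rw [if_neg hb, dif_pos hex, hch]
            unfold stp
            rw [htr]
            refine Prod.ext rfl ?_
            funext i
            have := (hd2 i).1
            simp only
            omega
    rcases key _ hx with h | ⟨t, ht⟩
    · exact h
    · exact ⟨t, by rw [ht]; exact hq⟩
  · rintro ⟨t, ht⟩
    have key : ∀ t, Relation.ReflTransGen (ZS δ T lo hi) (q0, fun _ => lo)
        ((stp (dm δ F) T)^[t] (q0, fun _ => lo)) := by
      intro t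
      induction t with
      | zero => exact Relation.ReflTransGen.refl
      | succ t ih =>
        have hr := hinv (t + 1)
        rw [Function.iterate_succ_apply'] at hr ⊢
        set b := (stp (dm δ F) T)^[t] (q0, fun _ => lo)
        rcases dtr_cases δ F b.1 (fun i => T (b.2 i)) with h | ⟨p, hp, hg, h⟩
        · have : stp (dm δ F) T b = b := by
            unfold stp
            have h' : (dm δ F).tr b.1 (fun i => T (b.2 i)) = (b.1, 0) := h
            rw [h']
            refine Prod.ext rfl ?_
            funext i
            simp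
          rw [this]; exact ih
        · refine ih.tail ⟨p.2, ?_, fun i => ?_⟩
          · have h' : (dm δ F).tr b.1 (fun i => T (b.2 i)) =
              (p.1, fun i => ((p.2 i).val : ℤ) - 1) := h
            have : (stp (dm δ F) T b).1 = p.1 := by
              unfold stp
              rw [h']
            rw [this]
            exact hp
          · have h' : (dm δ F).tr b.1 (fun i => T (b.2 i)) =
              (p.1, fun i => ((p.2 i).val : ℤ) - 1) := h
            refine ⟨?_, hr i⟩
            unfold stp
            rw [h']
            simp only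
            ring
    exact ⟨_, ht, _, key t⟩

/-- the standard tape has its markers at the ends only -/
theorem tp_markers (w : List A) (h z : A) (N : ℕ) :
    (∀ x, -(w.length : ℤ) - 1 ≤ x → x ≤ N + 1 →
      (tp (wl w) h z N x = Sum.inl false ↔ x = -(w.length : ℤ) - 1)) ∧
    (∀ x, -(w.length : ℤ) - 1 ≤ x → x ≤ N + 1 →
      (tp (wl w) h z N x = Sum.inl true ↔ x = N + 1)) := by
  have hw : ∀ x : ℤ, -(w.length : ℤ) ≤ x → x < 0 →
      ∃ a, wl w x = Sum.inr a := by
    intro x h1 h2
    unfold wl
    rw [if_neg (by omega), List.getElem?_eq_getElem (by omega)]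
    exact ⟨_, rfl⟩
  constructor
  · intro x hx1 hx2
    constructor
    · intro hx
      by_contra hne
      unfold tp at hx
      split_ifs at hx with h1 h2 h3
      · obtain ⟨a, ha⟩ := hw x (by omega) h1
        rw [ha] at hx; simp at hx
      · simp at hx
    · rintro rfl
      unfold tp wl
      rw [if_pos (by omega), if_pos (by omega)]
  · intro x hx1 hx2
    constructor
    · intro hx
      by_contra hne
      unfold tp at hx
      split_ifs at hx with h1 h2 h3
      · rcases eq_or_lt_of_le hx1 with h4 | h4
        · unfold wl at hx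
          rw [if_pos (by omega)] at hx
          simp at hx
        · obtain ⟨a, ha⟩ := hw x (by omega) h1
          rw [ha] at hx; simp at hx
      · omega
    · rintro rfl
      unfold tp
      rw [if_neg (by omega), if_neg (by omega), if_neg (by omega)]

end

end Pool.Agent.Lib.MP6fae94
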