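import Mathlib

set_option autoImplicit false

namespace Pool.Agent.Lib.MP6fae94

/-- displacement after `t` steps -/
def dsp {S : Type} (g : S → S) (v : S → ℤ) (s : S) (t : ℕ) : ℤ :=
  ∑ i ∈ Finset.range t, v (g^[i] s)

section
variable {S : Type} (g : S → S) (v : S → ℤ) (s : S)

theorem dsp_zero : dsp g v s 0 = 0 := by simp [dsp]

theorem dsp_succ (t : ℕ) : dsp g v s (t + 1) = dsp g v s t + v (g^[t] s) := by
  simp [dsp, Finset.sum_range_succ]

theorem dsp_neg (t : ℕ) : dsp g (fun x => - v x) s t = - dsp g v s t := by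
  simp [dsp, Finset.sum_neg_distrib]

theorem abs_dsp (hv : ∀ s, |v s| ≤ 1) (t : ℕ) : |dsp g v s t| ≤ t := by
  induction t with
  | zero => simp [dsp_zero]
  | succ t ih =>
    rw [dsp_succ]
    have := abs_add_le (dsp g v s t) (v (g^[t] s))
    have := hv (g^[t] s)
    push_cast
    linarith

theorem per_state (t0 ρ : ℕ) (hper : g^[t0 + ρ] s = g^[t0] s) (t : ℕ) (ht : t0 ≤ t) :
    g^[t + ρ] s = g^[t] s := by
  induction t, ht using Nat.le_induction with
  | base => exact hper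
  | succ t ht ih =>
    have : t + 1 + ρ = (t + ρ) + 1 := by omega
    rw [this, Function.iterate_succ_apply', Function.iterate_succ_apply', ih]

theorem per_dsp (t0 ρ : ℕ) (hper : g^[t0 + ρ] s = g^[t0] s) (t : ℕ) (ht : t0 ≤ t) :
    dsp g v s (t + ρ) = dsp g v s t + (dsp g v s (t0 + ρ) - dsp g v s t0) := by
  induction t, ht using Nat.le_induction with
  | base => ring
  | succ t ht ih =>
    have : t + 1 + ρ = (t + ρ) + 1 := by omega
    rw [this, dsp_succ, dsp_succ, ih, per_state g s t0 ρ hper t ht]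
    ring

/-- non positive drift: bounded above -/
theorem dsp_le (hv : ∀ s, |v s| ≤ 1) (t0 ρ K : ℕ) (hρ : 0 < ρ) (hK : t0 + ρ ≤ K)
    (hper : g^[t0 + ρ] s = g^[t0] s)
    (hE : dsp g v s (t0 + ρ) - dsp g v s t0 ≤ 0) (t : ℕ) : dsp g v s t ≤ K := by
  induction t using Nat.strong_induction_on with
  | _ t ih =>
    by_cases h : t < t0 + ρ
    · have := (abs_le.1 (abs_dsp g v s hv t)).2
      omega
    · obtain ⟨u, rfl⟩ : ∃ u, t = u + ρ := ⟨t - ρ, by omega⟩
      rw [per_dsp g v s t0 ρ hper u (by omega)]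
      have := ih u (by omega)
      linarith

/-- negative drift: goes below everything -/
theorem dsp_unb (hv : ∀ s, |v s| ≤ 1) (t0 ρ : ℕ) (hper : g^[t0 + ρ] s = g^[t0] s)
    (hE : dsp g v s (t0 + ρ) - dsp g v s t0 < 0) (y : ℕ) : ∃ t, dsp g v s t ≤ -(y : ℤ) := by
  have key : ∀ j : ℕ, dsp g v s (t0 + j * ρ) ≤ t0 - j := by
    intro j
    induction j with
    | zero =>
      have := (abs_le.1 (abs_dsp g v s hv t0)).2
      simpa using this
    | succ j ih =>
      have : t0 + (j + 1) * ρ = (t0 + j * ρ) + ρ := by ring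
      rw [this, per_dsp g v s t0 ρ hper _ (by omega)]
      push_cast
      linarith
  refine ⟨t0 + (t0 + y) * ρ, (key _).trans ?_⟩
  push_cast
  linarith

/-- first hit of `-y` -/
def FHm (y : ℤ) (t : ℕ) : Prop := dsp g v s t = -y ∧ ∀ i < t, -y < dsp g v s i

/-- first hit of `y` -/
def FHp (y : ℤ) (t : ℕ) : Prop := dsp g v s t = y ∧ ∀ i < t, dsp g v s i < y

theorem exists_FHm (hv : ∀ s, |v s| ≤ 1) (t0 ρ : ℕ) (hper : g^[t0 + ρ] s = g^[t0] s)
    (hE : dsp g v s (t0 + ρ) - dsp g v s t0 < 0) (y : ℕ) (hy : 0 < y) :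
    ∃ t, FHm g v s y t := by
  classical
  have hex := dsp_unb g v s hv t0 ρ hper hE y
  refine ⟨Nat.find hex, ?_, ?_⟩
  · have h1 := Nat.find_spec hex
    set T := Nat.find hex with hT
    rcases Nat.eq_zero_or_pos T with h0 | hpos
    · rw [h0, dsp_zero] at h1
      omega
    · obtain ⟨u, hu⟩ : ∃ u, T = u + 1 := ⟨T - 1, by omega⟩
      have h2 := Nat.find_min hex (m := u) (by omega)
      rw [hu, dsp_succ] at h1 ⊢
      have h3 := (abs_le.1 (hv (g^[u] s))).1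
      omega
  · intro i hi
    have := Nat.find_min hex hi
    omega

theorem FHm_shift (hv : ∀ s, |v s| ≤ 1) (t0 ρ K : ℕ) (hK : t0 + ρ ≤ K)
    (hper : g^[t0 + ρ] s = g^[t0] s) (y : ℤ) (hy : (K : ℤ) < y) (t : ℕ)
    (hE : dsp g v s (t0 + ρ) - dsp g v s t0 < 0) (h : FHm g v s y t) :
    FHm g v s (y - (dsp g v s (t0 + ρ) - dsp g v s t0)) (t + ρ) ∧
      g^[t + ρ] s = g^[t] s := by
  obtain ⟨h1, h2⟩ := h
  have ht : t0 ≤ t := by
    have := (abs_le.1 (abs_dsp g v s hv t)).1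
    omega
  refine ⟨⟨?_, ?_⟩, per_state g s t0 ρ hper t ht⟩
  · rw [per_dsp g v s t0 ρ hper t ht, h1]; ring
  · intro i hi
    by_cases h3 : i < t0 + ρ
    · have := (abs_le.1 (abs_dsp g v s hv i)).1
      omega
    · obtain ⟨u, rfl⟩ : ∃ u, i = u + ρ := ⟨i - ρ, by omega⟩
      rw [per_dsp g v s t0 ρ hper u (by omega)]
      have := h2 u (by omega)
      linarith

theorem neg_aux (hv : ∀ s, |v s| ≤ 1) (t0 ρ K : ℕ) (hK : t0 + ρ ≤ K)
    (hper : g^[t0 + ρ] s = g^[t0] s)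
    (hE : dsp g v s (t0 + ρ) - dsp g v s t0 < 0) (y : ℤ) (hy : (K : ℤ) < y) (t : ℕ)
    (h : FHm g v s y t) (j : ℕ) :
    ∃ t', FHm g v s (y - j * (dsp g v s (t0 + ρ) - dsp g v s t0)) t' ∧
      g^[t] s = g^[t'] s := by
  induction j with
  | zero => exact ⟨t, by simpa using h, rfl⟩
  | succ j ih =>
    obtain ⟨t', h1, h2⟩ := ih
    have h3 : (K : ℤ) < y - j * (dsp g v s (t0 + ρ) - dsp g v s t0) := by
      have : (j : ℤ) * (dsp g v s (t0 + ρ) - dsp g v s t0) ≤ 0 :=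
        mul_nonpos_of_nonneg_of_nonpos (by positivity) hE.le
      linarith
    obtain ⟨h4, h5⟩ := FHm_shift g v s hv t0 ρ K hK hper _ h3 t' hE h1
    refine ⟨t' + ρ, ?_, by rw [h5, h2]⟩
    have : y - (j : ℤ) * (dsp g v s (t0 + ρ) - dsp g v s t0) -
        (dsp g v s (t0 + ρ) - dsp g v s t0) =
        y - ((j + 1 : ℕ) : ℤ) * (dsp g v s (t0 + ρ) - dsp g v s t0) := by
      push_cast; ring
    rw [← this]; exact h4

theorem neg_drift (hv : ∀ s, |v s| ≤ 1) (t0 ρ K : ℕ) (hK : t0 + ρ ≤ K)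
    (hper : g^[t0 + ρ] s = g^[t0] s)
    (hE : dsp g v s (t0 + ρ) - dsp g v s t0 < 0) (y y' : ℤ) (hy : (K : ℤ) < y)
    (hy' : (K : ℤ) < y') (hd : ((K.factorial : ℕ) : ℤ) ∣ y' - y) :
    ∃ t t', FHm g v s y t ∧ FHm g v s y' t' ∧ g^[t] s = g^[t'] s := by
  wlog hle : y ≤ y' generalizing y y'
  · obtain ⟨t, t', h1, h2, h3⟩ := this y' y hy' hy
      (by rw [← neg_sub]; exact (dvd_neg).2 hd) (by omega)
    exact ⟨t', t, h2, h1, h3.symm⟩
  set E := dsp g v s (t0 + ρ) - dsp g v s t0 with hEdef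
  have hEρ : -E ≤ ρ := by
    have hsum : ∀ k : ℕ, |dsp g v s (t0 + k) - dsp g v s t0| ≤ k := by
      intro k
      induction k with
      | zero => simp
      | succ k ih =>
        rw [← Nat.add_assoc, dsp_succ]
        have h1 := hv (g^[t0 + k] s)
        have h2 := abs_add_le (dsp g v s (t0 + k) - dsp g v s t0) (v (g^[t0 + k] s))
        have h3 : dsp g v s (t0 + k) + v (g^[t0 + k] s) - dsp g v s t0 =
          dsp g v s (t0 + k) - dsp g v s t0 + v (g^[t0 + k] s) := by ring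
        rw [h3]
        push_cast
        linarith
    have := (abs_le.1 (hsum ρ)).1
    linarith
  obtain ⟨e, he⟩ : ∃ e : ℕ, -E = e := Int.eq_ofNat_of_zero_le (by omega)
  have he1 : e ∣ K.factorial := Nat.dvd_factorial (by omega) (by omega)
  have he2 : (e : ℤ) ∣ y' - y := (Int.natCast_dvd_natCast.2 he1).trans hd
  obtain ⟨j, hj⟩ := he2
  have hj0 : 0 ≤ j := by
    by_contra hneg
    have : (e : ℤ) * j < 0 := mul_neg_of_pos_of_neg (by omega) (by omega)
    omega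
  obtain ⟨j', rfl⟩ := Int.eq_ofNat_of_zero_le hj0
  obtain ⟨n, hn⟩ : ∃ n : ℕ, y = n := Int.eq_ofNat_of_zero_le (by omega)
  obtain ⟨t, ht⟩ := exists_FHm g v s hv t0 ρ hper hE n (by omega)
  rw [← hn] at ht
  obtain ⟨t', h1, h2⟩ := neg_aux g v s hv t0 ρ K hK hper hE y hy t ht j'
  refine ⟨t, t', ht, ?_, h2⟩
  have : y - (j' : ℤ) * E = y' := by
    have : E = -(e : ℤ) := by omega
    rw [this]
    linarith
  rw [← hEdef, this] at h1
  exact h1

/-- the drift trichotomy -/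
theorem drift (hv : ∀ s, |v s| ≤ 1) (t0 ρ K : ℕ) (hρ : 0 < ρ) (hK : t0 + ρ ≤ K)
    (hper : g^[t0 + ρ] s = g^[t0] s) :
    (∀ t, |dsp g v s t| ≤ K) ∨
    ((∀ t, dsp g v s t ≤ K) ∧ ∀ y y' : ℤ, (K : ℤ) < y → (K : ℤ) < y' →
      ((K.factorial : ℕ) : ℤ) ∣ y' - y →
      ∃ t t', FHm g v s y t ∧ FHm g v s y' t' ∧ g^[t] s = g^[t'] s) ∨
    ((∀ t, -(K : ℤ) ≤ dsp g v s t) ∧ ∀ y y' : ℤ, (K : ℤ) < y → (K : ℤ) < y' →
      ((K.factorial : ℕ) : ℤ) ∣ y' - y →
      ∃ t t', FHp g v s y t ∧ FHp g v s y' t' ∧ g^[t] s = g^[t'] s) := by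
  have hv' : ∀ s, |(fun x => - v x) s| ≤ 1 := fun s => by simpa using hv s
  rcases lt_trichotomy (dsp g v s (t0 + ρ) - dsp g v s t0) 0 with hE | hE | hE
  · right; left
    exact ⟨dsp_le g v s hv t0 ρ K hρ hK hper hE.le,
      fun y y' hy hy' hd => neg_drift g v s hv t0 ρ K hK hper hE y y' hy hy' hd⟩
  · left
    intro t
    rw [abs_le]
    refine ⟨?_, dsp_le g v s hv t0 ρ K hρ hK hper hE.le t⟩
    have := dsp_le g (fun x => - v x) s hv' t0 ρ K hρ hK hper
      (by rw [dsp_neg, dsp_neg]; linarith) t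
    rw [dsp_neg] at this
    linarith
  · right; right
    have hE' : dsp g (fun x => - v x) s (t0 + ρ) - dsp g (fun x => - v x) s t0 < 0 := by
      rw [dsp_neg, dsp_neg]; linarith
    refine ⟨fun t => ?_, fun y y' hy hy' hd => ?_⟩
    · have := dsp_le g (fun x => - v x) s hv' t0 ρ K hρ hK hper hE'.le t
      rw [dsp_neg] at this
      linarith
    · obtain ⟨t, t', h1, h2, h3⟩ := neg_drift g (fun x => - v x) s hv' t0 ρ K hK hper hE' y y'
        hy hy' hd
      refine ⟨t, t', ⟨?_, fun i hi => ?_⟩, ⟨?_, fun i hi => ?_⟩, h3⟩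
      · have := h1.1; rw [dsp_neg] at this; linarith
      · have := h1.2 i hi; rw [dsp_neg] at this; linarith
      · have := h2.1; rw [dsp_neg] at this; linarith
      · have := h2.2 i hi; rw [dsp_neg] at this; linarith

end

end Pool.Agent.Lib.MP6fae94
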