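import Pool.Agent.Lib.MP_6fae94_lc.Jump

set_option autoImplicit false

namespace Pool.Agent.Lib.MP6fae94

/-- exact agreement of positions, up to threshold `k` -/
def EX (N N' : ℕ) (k : ℤ) (y y' : ℤ) : Prop :=
  (y = y' ∧ y ≤ k) ∨ ((N : ℤ) + 1 - y = N' + 1 - y' ∧ (N : ℤ) + 1 - y ≤ k)

section
variable {Q A : Type} [Fintype Q] (M : DM Q A)

/-- some head inside the word, everything exact -/
def E1 (n N N' : ℕ) (c c' : Q × (Fin 2 → ℤ)) : Prop :=
  (∃ i, c.2 i < 0) ∧ ∀ i, -(n : ℤ) - 1 ≤ c.2 i ∧ c.2 i ≤ N + 1 ∧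
    EX N N' ((KK Q n : ℕ) + 1) (c.2 i) (c'.2 i)

/-- a head at the separator, the other one outside the word and exact -/
def E2 (n N N' : ℕ) (c c' : Q × (Fin 2 → ℤ)) : Prop :=
  ∃ r, c.2 r = 0 ∧ c'.2 r = 0 ∧ 0 ≤ c.2 (oth r) ∧ c.2 (oth r) ≤ N + 1 ∧
    EX N N' (2 * (KK Q n : ℕ) + 1) (c.2 (oth r)) (c'.2 (oth r))

/-- a head inside the word that will not come out, the other one in the middle -/
def E3 (W : ℤ → Bool ⊕ A) (z : A) (n N N' : ℕ) (c c' : Q × (Fin 2 → ℤ)) : Prop :=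
  ∃ r, c.2 r = c'.2 r ∧ -(n : ℤ) - 1 ≤ c.2 r ∧ c.2 r < 0 ∧
    ((KK Q n : ℕ) : ℤ) < c.2 (oth r) ∧ c.2 (oth r) + (KK Q n : ℕ) < N + 1 ∧
    ((KK Q n : ℕ) : ℤ) < c'.2 (oth r) ∧ c'.2 (oth r) + (KK Q n : ℕ) < N' + 1 ∧
    (((KK Q n).factorial : ℕ) : ℤ) ∣ c'.2 (oth r) - c.2 (oth r) ∧
    ex M W z r (c.1, c.2 r) = none

/-- the relation -/
def RE (W : ℤ → Bool ⊕ A) (z : A) (n N N' : ℕ) (c c' : Q × (Fin 2 → ℤ)) : Prop :=
  c.1 = c'.1 ∧ (E1 n N N' c c' ∨ E2 n N N' c c' ∨ E3 M W z n N N' c c')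

/-- progress -/
def PG (W : ℤ → Bool ⊕ A) (h z : A) (n N N' : ℕ) (c c' : Q × (Fin 2 → ℤ)) : Prop :=
  ((∃ t, ((stp M (tp W h z N))^[t] c).1 ∈ M.acc) ↔
    (∃ t, ((stp M (tp W h z N'))^[t] c').1 ∈ M.acc)) ∨
  ∃ i j, 0 < i ∧ 0 < j ∧
    RE M W z n N N' ((stp M (tp W h z N))^[i] c) ((stp M (tp W h z N'))^[j] c')

theorem prog3 (W : ℤ → Bool ⊕ A) (h z : A) (n N N' : ℕ)
    (hW : W (-(n : ℤ) - 1) = Sum.inl false)
    (hd : (((KK Q n).factorial : ℕ) : ℤ) ∣ (N' : ℤ) - N)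
    (c c' : Q × (Fin 2 → ℤ)) (h0 : c.1 = c'.1) (hE : E3 M W z n N N' c c') :
    PG M W h z n N N' c c' := by
  obtain ⟨r, h1, h2, h3, h4, h5, h6, h7, h8, h9⟩ := hE
  have hc : c = (c.1, mk r (c.2 r) (c.2 (oth r))) := Prod.ext rfl (eq_mk r c.2)
  have hc' : c' = (c.1, mk r (c.2 r) (c'.2 (oth r))) := by
    refine Prod.ext h0.symm ?_
    rw [h1]
    exact eq_mk r c'.2
  rcases lemB M W z n hW r c.1 (c.2 r) h2 h9 h N N' (c.2 (oth r)) (c'.2 (oth r))
    h4 h5 h6 h7 h8 hd with hl | ⟨t, t', ht, ht', q1, x1, hx1, hx2, ⟨ha, hb⟩ | ⟨ha, hb⟩⟩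
  · left
    rw [← hc, ← hc'] at hl
    exact hl
  · right
    refine ⟨t, t', ht, ht', ?_⟩
    rw [← hc] at ha
    rw [← hc'] at hb
    rw [ha, hb]
    refine ⟨rfl, Or.inl ⟨⟨r, by simpa using hx2⟩, fun i => ?_⟩⟩
    rcases eq_or_oth r i with rfl | rfl
    · simp only [mk_self, EX]
      exact ⟨hx1, by omega, Or.inl ⟨by trivial, by omega⟩⟩
    · simp only [mk_oth, EX]
      exact ⟨by omega, by omega, Or.inl ⟨by trivial, by omega⟩⟩
  · right
    refine ⟨t, t', ht, ht', ?_⟩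
    rw [← hc] at ha
    rw [← hc'] at hb
    rw [ha, hb]
    refine ⟨rfl, Or.inl ⟨⟨r, by simpa using hx2⟩, fun i => ?_⟩⟩
    rcases eq_or_oth r i with rfl | rfl
    · simp only [mk_self, EX]
      exact ⟨hx1, by omega, Or.inl ⟨by trivial, by omega⟩⟩
    · simp only [mk_oth, EX]
      exact ⟨by omega, by omega, Or.inr ⟨by omega, by omega⟩⟩

/-- the tapes agree at exactly related positions -/
theorem tp_eq (W : ℤ → Bool ⊕ A) (h z : A) (N N' : ℕ) (k : ℕ) (hN : k + 1 ≤ N)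
    (hN' : k + 1 ≤ N') (y y' : ℤ) (hE : EX N N' k y y') :
    tp W h z N y = tp W h z N' y' := by
  rcases hE with ⟨rfl, h1⟩ | ⟨h1, h2⟩
  · unfold tp
    by_cases h3 : y < 0
    · rw [if_pos h3, if_pos h3]
    · by_cases h4 : y = 0
      · rw [if_neg h3, if_neg h3, if_pos h4, if_pos h4]
      · rw [if_neg h3, if_neg h3, if_neg h4, if_neg h4, if_pos (by omega), if_pos (by omega)]
  · unfold tp
    rw [if_neg (by omega : ¬ y < 0), if_neg (by omega : ¬ y = 0),
      if_neg (by omega : ¬ y' < 0), if_neg (by omega : ¬ y' = 0)]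
    by_cases h5 : y ≤ N
    · rw [if_pos h5, if_pos (by omega)]
    · rw [if_neg h5, if_neg (by omega)]

theorem prog1 (W : ℤ → Bool ⊕ A) (h z : A) (n N N' : ℕ)
    (hW : W (-(n : ℤ) - 1) = Sum.inl false)
    (hd : (((KK Q n).factorial : ℕ) : ℤ) ∣ (N' : ℤ) - N)
    (hN : 4 * KK Q n + 10 ≤ N) (hN' : 4 * KK Q n + 10 ≤ N')
    (c c' : Q × (Fin 2 → ℤ)) (h0 : c.1 = c'.1) (hE : E1 n N N' c c') :
    PG M W h z n N N' c c' := by
  obtain ⟨⟨r, hr⟩, hall⟩ := hE
  have hxr : c.2 r = c'.2 r := by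
    rcases (hall r).2.2 with h1 | h1
    · exact h1.1
    · omega
  have hex := (hall (oth r)).2.2
  have hlo := (hall r).1
  by_cases hth : (c.2 (oth r) = c'.2 (oth r) ∧ c.2 (oth r) = (KK Q n : ℕ) + 1) ∨
      ((N : ℤ) + 1 - c.2 (oth r) = N' + 1 - c'.2 (oth r) ∧
        (N : ℤ) + 1 - c.2 (oth r) = (KK Q n : ℕ) + 1)
  · -- at the threshold
    have hmid : ((KK Q n : ℕ) : ℤ) < c.2 (oth r) ∧ c.2 (oth r) + (KK Q n : ℕ) < N + 1 ∧
        ((KK Q n : ℕ) : ℤ) < c'.2 (oth r) ∧ c'.2 (oth r) + (KK Q n : ℕ) < N' + 1 := by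
      rcases hth with ⟨h1, h2⟩ | ⟨h1, h2⟩
      · refine ⟨?_, ?_, ?_, ?_⟩ <;> omega
      · refine ⟨?_, ?_, ?_, ?_⟩ <;> omega
    have hdd : (((KK Q n).factorial : ℕ) : ℤ) ∣ c'.2 (oth r) - c.2 (oth r) := by
      rcases hth with ⟨h1, h2⟩ | ⟨h1, h2⟩
      · rw [h1, sub_self]; exact dvd_zero _
      · have : c'.2 (oth r) - c.2 (oth r) = (N' : ℤ) - N := by linarith
        rw [this]; exact hd
    rcases hexx : ex M W z r (c.1, c.2 r) with _ | ⟨q', d⟩
    · exact prog3 M W h z n N N' hW hd c c' h0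
        ⟨r, hxr, hlo, hr, hmid.1, hmid.2.1, hmid.2.2.1, hmid.2.2.2, hdd, hexx⟩
    · obtain ⟨hd1, t, ht, hrun⟩ := lemA M W z n hW r c.1 (c.2 r) hlo hr q' d hexx
      have hd2 : |d| ≤ ((KK Q n : ℕ) : ℤ) := hd1
      have hd3 := abs_le.1 hd2
      have hc : c = (c.1, mk r (c.2 r) (c.2 (oth r))) := Prod.ext rfl (eq_mk r c.2)
      have hc' : c' = (c.1, mk r (c.2 r) (c'.2 (oth r))) := by
        refine Prod.ext h0.symm ?_
        rw [hxr]
        exact eq_mk r c'.2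
      right
      refine ⟨t, t, ht, ht, ?_⟩
      have e1 := hrun h N (c.2 (oth r)) hmid.1 hmid.2.1
      have e2 := hrun h N' (c'.2 (oth r)) hmid.2.2.1 hmid.2.2.2
      rw [← hc] at e1
      rw [← hc'] at e2
      rw [e1, e2]
      refine ⟨rfl, Or.inr (Or.inl ⟨r, by simp, by simp, ?_, ?_, ?_⟩)⟩
      · simp only [mk_oth]; omega
      · simp only [mk_oth]; omega
      · simp only [mk_oth, EX]
        rcases hth with ⟨h1, h2⟩ | ⟨h1, h2⟩
        · left; constructor <;> omega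
        · right; constructor <;> omega
  · -- a single step
    have hEXk : ∀ i, EX N N' (KK Q n : ℕ) (c.2 i) (c'.2 i) := by
      intro i
      rcases eq_or_oth r i with rfl | rfl
      · left; exact ⟨hxr, by omega⟩
      · push Not at hth
        rcases hex with ⟨h1, h2⟩ | ⟨h1, h2⟩
        · have := hth.1 h1
          left; exact ⟨h1, by omega⟩
        · have := hth.2 h1
          right; exact ⟨h1, by omega⟩
    have hsym : (fun i => tp W h z N (c.2 i)) = (fun i => tp W h z N' (c'.2 i)) := by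
      funext i
      exact tp_eq W h z N N' (KK Q n) (by omega) (by omega) _ _ (hEXk i)
    set m := (M.tr c.1 (fun i => tp W h z N (c.2 i))).2 with hm
    have hs1 : stp M (tp W h z N) c =
        ((M.tr c.1 (fun i => tp W h z N (c.2 i))).1, fun i => c.2 i + m i) := rfl
    have hs2 : stp M (tp W h z N') c' =
        ((M.tr c.1 (fun i => tp W h z N (c.2 i))).1, fun i => c'.2 i + m i) := by
      unfold stp
      rw [← h0, ← hsym]
    have hmb : ∀ i, -1 ≤ m i ∧ m i ≤ 1 := fun i => abs_le.1 (M.mv _ _ i)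
    have hbnd : ∀ i, -(n : ℤ) - 1 ≤ c.2 i + m i ∧ c.2 i + m i ≤ N + 1 := by
      intro i
      have h1 := hall i
      have h2 := hmb i
      constructor
      · rcases eq_or_lt_of_le h1.1 with h3 | h3
        · have : 0 ≤ m i := M.noL _ _ i (by
            simp only [tp]
            rw [if_pos (by omega), ← h3]; exact hW)
          omega
        · omega
      · rcases eq_or_lt_of_le h1.2.1 with h3 | h3
        · have : m i ≤ 0 := M.noR _ _ i (by
            simp only [tp]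
            rw [if_neg (by omega), if_neg (by omega), if_neg (by omega)])
          omega
        · omega
    have hex1 : ∀ i, EX N N' ((KK Q n : ℕ) + 1) (c.2 i + m i) (c'.2 i + m i) := by
      intro i
      have h2 := hmb i
      rcases hEXk i with ⟨h3, h4⟩ | ⟨h3, h4⟩
      · left; constructor <;> omega
      · right; constructor <;> omega
    right
    refine ⟨1, 1, one_pos, one_pos, ?_⟩
    rw [Function.iterate_one, Function.iterate_one, hs1, hs2]
    refine ⟨rfl, ?_⟩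
    by_cases hneg : ∃ i, c.2 i + m i < 0
    · left
      exact ⟨hneg, fun i => ⟨(hbnd i).1, (hbnd i).2, hex1 i⟩⟩
    · right; left
      push Not at hneg
      have h1 := hneg r
      have h2 := hmb r
      refine ⟨r, ?_, ?_, ?_, ?_, ?_⟩
      · show c.2 r + m r = 0
        omega
      · show c'.2 r + m r = 0
        omega
      · exact hneg (oth r)
      · exact (hbnd (oth r)).2
      · show EX N N' (2 * ((KK Q n : ℕ) : ℤ) + 1) (c.2 (oth r) + m (oth r))
          (c'.2 (oth r) + m (oth r))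
        rcases hex1 (oth r) with ⟨h3, h4⟩ | ⟨h3, h4⟩
        · left; exact ⟨h3, by omega⟩
        · right; exact ⟨h3, by omega⟩

theorem prog2 (W : ℤ → Bool ⊕ A) (h z : A) (n N N' : ℕ)
    (hW : W (-(n : ℤ) - 1) = Sum.inl false)
    (hN : 4 * KK Q n + 10 ≤ N) (hN' : 4 * KK Q n + 10 ≤ N')
    (hO : ∀ s, Out M h z n N (tauW M W z n) (st n N s) =
      Out M h z n N' (tauW M W z n) (st n N' s))
    (c c' : Q × (Fin 2 → ℤ)) (h0 : c.1 = c'.1) (hE : E2 n N N' c c') :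
    PG M W h z n N N' c c' := by
  obtain ⟨r, h1, h2, h3, h4, h5⟩ := hE
  by_cases hacc : c.1 ∈ M.acc
  · left
    exact ⟨fun _ => ⟨0, by show c'.1 ∈ M.acc; rw [← h0]; exact hacc⟩, fun _ => ⟨0, hacc⟩⟩
  -- the common start
  obtain ⟨s, hs, hs'⟩ : ∃ s, c = st n N s ∧ c' = st n N' s := by
    have e1 := eq_mk r c.2
    have e2 := eq_mk r c'.2
    rw [h1] at e1
    rw [h2] at e2
    rcases h5 with ⟨h6, h7⟩ | ⟨h6, h7⟩
    · refine ⟨(r, c.1, true, ⟨(c.2 (oth r)).toNat, by omega⟩), ?_, ?_⟩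
      · refine Prod.ext rfl ?_
        refine e1.trans ?_
        simp only [st, if_true]
        congr 1
        omega
      · refine Prod.ext h0.symm ?_
        refine e2.trans ?_
        simp only [st, if_true]
        congr 1
        omega
    · refine ⟨(r, c.1, false, ⟨(N + 1 - c.2 (oth r)).toNat, by omega⟩), ?_, ?_⟩
      · refine Prod.ext rfl ?_
        refine e1.trans ?_
        simp only [st, Bool.false_eq_true, if_false]
        congr 1
        omega
      · refine Prod.ext h0.symm ?_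
        refine e2.trans ?_
        simp only [st, Bool.false_eq_true, if_false]
        congr 1
        omega
  have hOs := hO s
  rw [← hs, ← hs'] at hOs
  rcases hout : Out M h z n N (tauW M W z n) c with _ | a
  · left
    have hout' := hOs ▸ hout
    have n1 := Out_none M h z n N _ c hout
    have n2 := Out_none M h z n N' _ c' hout'
    constructor
    · rintro ⟨t, ht⟩
      exact absurd ht (J2 M W h z n N hW t c n1)
    · rintro ⟨t, ht⟩
      exact absurd ht (J2 M W h z n N' hW t c' n2)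
  · have hout' := hOs ▸ hout
    obtain ⟨c1, hr1, hst1, ha1, hb1⟩ := Out_some M h z n N _ c a hout
    obtain ⟨c2, hr2, hst2, ha2, hb2⟩ := Out_some M h z n N' _ c' a hout'
    have hge : ∀ i, 0 ≤ c.2 i := fun i => by
      rcases eq_or_oth r i with rfl | rfl
      · omega
      · exact h3
    have hge' : ∀ i, 0 ≤ c'.2 i := fun i => by
      rcases eq_or_oth r i with rfl | rfl
      · omega
      · rcases h5 with ⟨h6, h7⟩ | ⟨h6, h7⟩ <;> omega
    have hns : ¬ Stop M h z n N (tauW M W z n) c := fun hst =>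
      hst _ ⟨hacc, Or.inl ⟨hge, rfl⟩⟩
    have hns' : ¬ Stop M h z n N' (tauW M W z n) c' := fun hst =>
      hst _ ⟨by rw [← h0]; exact hacc, Or.inl ⟨hge', rfl⟩⟩
    obtain ⟨t1, ht1, hrun1⟩ := J1p M W h z n N hW c c1 hns hst1 hr1
    obtain ⟨t2, ht2, hrun2⟩ := J1p M W h z n N' hW c' c2 hns' hst2 hr2
    have hq : c1.1 = c2.1 := ha1.trans ha2.symm
    by_cases hacc1 : c1.1 ∈ M.acc
    · left
      refine ⟨fun _ => ⟨t2, ?_⟩, fun _ => ⟨t1, ?_⟩⟩
      · rw [hrun2, ← hq]; exact hacc1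
      · rw [hrun1]; exact hacc1
    · right
      refine ⟨t1, t2, ht1, ht2, ?_⟩
      rw [hrun1, hrun2]
      refine ⟨hq, ?_⟩
      have hi1 : ∀ i, -1 ≤ c1.2 i ∧ c1.2 i ≤ N + 1 := by
        refine J_invs M h z n N _ c c1 (fun i => ?_) hr1
        rcases eq_or_oth r i with rfl | rfl <;> constructor <;> omega
      have hi2 : ∀ i, -1 ≤ c2.2 i ∧ c2.2 i ≤ N' + 1 := by
        refine J_invs M h z n N' _ c' c2 (fun i => ?_) hr2
        rcases eq_or_oth r i with rfl | rfl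
        · constructor <;> omega
        · rcases h5 with ⟨h6, h7⟩ | ⟨h6, h7⟩ <;> constructor <;> omega
      have hpa : ∀ i, _ := fun i => pa_eq (KK Q n) N N' (c1.2 i) (c2.2 i) (hi1 i).1 (hi1 i).2
        (hi2 i).1 (hi2 i).2 ((hb1 i).trans (hb2 i).symm)
      obtain ⟨r', hr'⟩ : ∃ r', c1.2 r' = -1 := by
        by_contra hno
        push Not at hno
        refine hst1 _ ⟨hacc1, Or.inl ⟨fun i => ?_, rfl⟩⟩
        have h6 := (hi1 i).1
        have h7 := hno i
        omega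
      have hr2' : c2.2 r' = -1 := by
        rcases hpa r' with ⟨h6, h7⟩ | ⟨h6, h7⟩ | ⟨h6, h7, h8, h9, h10⟩ <;> omega
      have hexr : EX N N' ((KK Q n : ℕ) + 1) (c1.2 r') (c2.2 r') := by
        left; constructor <;> omega
      rcases hpa (oth r') with ⟨h6, h7⟩ | ⟨h6, h7⟩ | ⟨h6, h7, h8, h9, h10⟩
      · left
        refine ⟨⟨r', by omega⟩, fun i => ?_⟩
        have := hi1 i
        refine ⟨by omega, by omega, ?_⟩
        rcases eq_or_oth r' i with rfl | rfl
        · exact hexr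
        · left; constructor <;> omega
      · left
        refine ⟨⟨r', by omega⟩, fun i => ?_⟩
        have := hi1 i
        refine ⟨by omega, by omega, ?_⟩
        rcases eq_or_oth r' i with rfl | rfl
        · exact hexr
        · right; constructor <;> omega
      · right; right
        refine ⟨r', by omega, by omega, by omega, h6, h7, h8, h9, h10, ?_⟩
        rw [hr']
        rcases htau : tauW M W z n r' c1.1 with _ | ⟨q', v⟩
        · exact tau_none M W z n r' c1.1 htau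
        · exact absurd ⟨hacc1, Or.inr ⟨r', hr', h6, h7, q', v, htau, rfl⟩⟩ (hst1 _)

/-- equal data give equal acceptance -/
theorem lb_core (W : ℤ → Bool ⊕ A) (h z : A) (n N N' : ℕ) (q0 : Q)
    (hW : W (-(n : ℤ) - 1) = Sum.inl false)
    (hd : (((KK Q n).factorial : ℕ) : ℤ) ∣ (N' : ℤ) - N)
    (hN : 4 * KK Q n + 10 ≤ N) (hN' : 4 * KK Q n + 10 ≤ N')
    (hO : ∀ s, Out M h z n N (tauW M W z n) (st n N s) =
      Out M h z n N' (tauW M W z n) (st n N' s)) :
    (∃ t, ((stp M (tp W h z N))^[t] (q0, fun _ => -(n : ℤ) - 1)).1 ∈ M.acc) ↔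
    (∃ t, ((stp M (tp W h z N'))^[t] (q0, fun _ => -(n : ℤ) - 1)).1 ∈ M.acc) := by
  refine sim (stp M (tp W h z N)) (stp M (tp W h z N')) (fun c => c.1 ∈ M.acc)
    (fun c => c.1 ∈ M.acc) (fun c hc => stp_acc' M _ c hc) (fun c hc => stp_acc' M _ c hc)
    (RE M W z n N N') ?_ ?_ _ _ ?_
  · intro c c' hcc
    rw [hcc.1]
  · rintro c c' ⟨h0, h1 | h1 | h1⟩
    · exact prog1 M W h z n N N' hW hd hN hN' c c' h0 h1
    · exact prog2 M W h z n N N' hW hN hN' hO c c' h0 h1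
    · exact prog3 M W h z n N N' hW hd c c' h0 h1
  · refine ⟨rfl, Or.inl ⟨⟨0, ?_⟩, fun i => ⟨?_, ?_, Or.inl ⟨rfl, ?_⟩⟩⟩⟩
    · show -(n : ℤ) - 1 < 0
      omega
    · show -(n : ℤ) - 1 ≤ -(n : ℤ) - 1
      omega
    · show -(n : ℤ) - 1 ≤ (N : ℤ) + 1
      omega
    · show -(n : ℤ) - 1 ≤ _
      omega

end

end Pool.Agent.Lib.MP6fae94
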