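import Pool.Agent.Lib.MP_6fae94_lc.Conv
import Pool.Agent.Lib.MP_6fae94_lc.Det
import Pool.Agent.Lib.MP_6fae94_lc.Rel

set_option autoImplicit false

namespace Pool.Agent.Lib.MP6fae94

/-- the function part of the data -/
abbrev DF (Q : Type) [Fintype Q] (n : ℕ) : Type :=
  TAU Q n → (Fin 2 × Q × Bool × Fin (2 * KK Q n + 2)) →
      Option (Q × (Fin 2 → Fin 3 × Fin (BB Q n)))

/-- the data type -/
abbrev DD (Q : Type) [Fintype Q] (n : ℕ) : Type :=
  Fin (4 * KK Q n + 11) × Fin (KK Q n).factorial × DF Q n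

instance instFiniteDF (Q : Type) [Fintype Q] (n : ℕ) : Finite (DF Q n) := inferInstance

noncomputable instance instFintypeDD (Q : Type) [Fintype Q] (n : ℕ) : Fintype (DD Q n) := by
  haveI := instFiniteDF Q n
  haveI : Finite (Fin (KK Q n).factorial × DF Q n) := Finite.instProd
  haveI : Finite (DD Q n) := Finite.instProd
  exact Fintype.ofFinite _

theorem card_bound (κ K a : ℕ) (hK : K + 20 ≤ a) (hκ : κ ≤ a) :
    (4 * K + 11) * (K.factorial * ((κ * (3 * (K.factorial + K + 2)) ^ 2 + 1) ^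
      (2 * (κ * (2 * (2 * K + 2))))) ^ (((κ * (2 * K + 1) + 1) ^ κ) ^ 2)) ≤
      2 ^ (a ^ (6 * κ + 7)) := by
  have ha : a < 2 ^ a := Nat.lt_two_pow_self
  have hsq : a ≤ a ^ 2 := by nlinarith
  have h1 : K.factorial ≤ 2 ^ (a ^ 2) := by
    calc K.factorial ≤ K ^ K := Nat.factorial_le_pow K
      _ ≤ a ^ K := Nat.pow_le_pow_left (by omega) _
      _ ≤ a ^ a := Nat.pow_le_pow_right (by omega) (by omega)
      _ ≤ (2 ^ a) ^ a := Nat.pow_le_pow_left ha.le _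
      _ = 2 ^ (a ^ 2) := by rw [← pow_mul, sq]
  have h2 : 3 * (K.factorial + K + 2) ≤ 2 ^ (a ^ 2 + 3) := by
    have : a < 2 ^ (a ^ 2) := ha.trans_le (Nat.pow_le_pow_right (by norm_num) hsq)
    rw [pow_add]
    have h8 : (2 : ℕ) ^ 3 = 8 := by norm_num
    rw [h8]
    omega
  have h3 : κ * (3 * (K.factorial + K + 2)) ^ 2 + 1 ≤ 2 ^ (4 * a ^ 2) := by
    calc κ * (3 * (K.factorial + K + 2)) ^ 2 + 1 ≤ 2 ^ a * (2 ^ (a ^ 2 + 3)) ^ 2 + 1 := by
          gcongr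
          exact hκ.trans ha.le
      _ ≤ 2 ^ a * (2 ^ (a ^ 2 + 3)) ^ 2 + 2 ^ a * (2 ^ (a ^ 2 + 3)) ^ 2 := by
          gcongr
          exact Nat.one_le_iff_ne_zero.2 (by positivity)
      _ = 2 ^ (a + 2 * (a ^ 2 + 3) + 1) := by
          rw [← pow_mul, ← pow_add, pow_succ]; ring
      _ ≤ 2 ^ (4 * a ^ 2) := by
          apply Nat.pow_le_pow_right (by norm_num)
          nlinarith
  have h4 : 2 * (κ * (2 * (2 * K + 2))) ≤ a ^ 3 := by
    calc 2 * (κ * (2 * (2 * K + 2))) ≤ 2 * (a * (2 * (2 * a))) := by gcongr; omega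
      _ = 8 * a ^ 2 := by ring
      _ ≤ a * a ^ 2 := by gcongr; omega
      _ = a ^ 3 := by ring
  have h5 : ((κ * (2 * K + 1) + 1) ^ κ) ^ 2 ≤ a ^ (6 * κ) := by
    have : κ * (2 * K + 1) + 1 ≤ a ^ 3 := by
      calc κ * (2 * K + 1) + 1 ≤ a * (2 * a) + 1 := by gcongr; omega
        _ ≤ a ^ 3 := by nlinarith [sq_nonneg a]
    calc ((κ * (2 * K + 1) + 1) ^ κ) ^ 2 ≤ ((a ^ 3) ^ κ) ^ 2 := by gcongr
      _ = a ^ (6 * κ) := by rw [← pow_mul, ← pow_mul]; ring_nf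
  have h6 : 4 * K + 11 ≤ 2 ^ (a ^ 2) := by
    calc 4 * K + 11 ≤ 4 * a := by omega
      _ ≤ 4 * 2 ^ a := by gcongr
      _ = 2 ^ (a + 2) := by rw [pow_add]; ring
      _ ≤ 2 ^ (a ^ 2) := Nat.pow_le_pow_right (by norm_num) (by nlinarith)
  have h7 : (((κ * (3 * (K.factorial + K + 2)) ^ 2 + 1) ^
      (2 * (κ * (2 * (2 * K + 2)))))) ^ (((κ * (2 * K + 1) + 1) ^ κ) ^ 2) ≤
      2 ^ (4 * a ^ (6 * κ + 5)) := by
    calc (((κ * (3 * (K.factorial + K + 2)) ^ 2 + 1) ^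
      (2 * (κ * (2 * (2 * K + 2)))))) ^ (((κ * (2 * K + 1) + 1) ^ κ) ^ 2)
        ≤ (((2 ^ (4 * a ^ 2)) ^ (2 * (κ * (2 * (2 * K + 2)))))) ^
          (((κ * (2 * K + 1) + 1) ^ κ) ^ 2) := by gcongr
      _ = 2 ^ (4 * a ^ 2 * (2 * (κ * (2 * (2 * K + 2)))) * (((κ * (2 * K + 1) + 1) ^ κ) ^ 2)) := by
          rw [← pow_mul, ← pow_mul, ← mul_assoc]
      _ ≤ 2 ^ (4 * a ^ 2 * a ^ 3 * a ^ (6 * κ)) := by
          apply Nat.pow_le_pow_right (by norm_num)
          gcongr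
      _ = 2 ^ (4 * a ^ (6 * κ + 5)) := by
          congr 1
          ring
  calc _ ≤ 2 ^ (a ^ 2) * (2 ^ (a ^ 2) * 2 ^ (4 * a ^ (6 * κ + 5))) := by gcongr
    _ = 2 ^ (a ^ 2 + (a ^ 2 + 4 * a ^ (6 * κ + 5))) := by rw [← pow_add, ← pow_add]
    _ ≤ 2 ^ (a ^ (6 * κ + 7)) := by
        apply Nat.pow_le_pow_right (by norm_num)
        have e1 : a ^ 2 ≤ a ^ (6 * κ + 5) := Nat.pow_le_pow_right (by omega) (by omega)
        have e2 : a ^ (6 * κ + 7) = a ^ 2 * a ^ (6 * κ + 5) := by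
          rw [← pow_add]; congr 1; ring
        rw [e2]
        have e3 : 6 ≤ a ^ 2 := by nlinarith
        calc a ^ 2 + (a ^ 2 + 4 * a ^ (6 * κ + 5)) ≤ 6 * a ^ (6 * κ + 5) := by omega
          _ ≤ a ^ 2 * a ^ (6 * κ + 5) := by gcongr

theorem card_DD (Q : Type) [Fintype Q] (n : ℕ) :
    Fintype.card (DD Q n) ≤
      2 ^ ((Fintype.card Q * (n + 2) + 20) ^ (6 * Fintype.card Q + 7)) := by
  classical
  have := card_bound (Fintype.card Q) (KK Q n) (Fintype.card Q * (n + 2) + 20)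
    (by show Fintype.card Q * (n + 1) + 20 ≤ _; nlinarith)
    (by nlinarith [Nat.zero_le (Fintype.card Q), Nat.zero_le n])
  refine le_trans (le_of_eq ?_) this
  have e1 : Nat.card (TAU Q n) =
      ((Fintype.card Q * (2 * KK Q n + 1) + 1) ^ Fintype.card Q) ^ 2 := by
    show Nat.card (Fin 2 → Q → Option (Q × Fin (2 * KK Q n + 1))) = _
    rw [Nat.card_fun, Nat.card_fun]
    simp only [Nat.card_eq_fintype_card, Fintype.card_option, Fintype.card_prod,
      Fintype.card_fin]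
  have e2 : Nat.card (Fin 2 × Q × Bool × Fin (2 * KK Q n + 2)) =
      2 * (Fintype.card Q * (2 * (2 * KK Q n + 2))) := by
    rw [Nat.card_prod, Nat.card_prod, Nat.card_prod]
    simp only [Nat.card_eq_fintype_card, Fintype.card_fin, Fintype.card_bool]
  have e3 : Nat.card (Option (Q × (Fin 2 → Fin 3 × Fin (BB Q n)))) =
      Fintype.card Q * (3 * ((KK Q n).factorial + KK Q n + 2)) ^ 2 + 1 := by
    simp only [Nat.card_eq_fintype_card, Fintype.card_option, Fintype.card_prod,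
      Fintype.card_fin, Fintype.card_fun]
  have e4 : Nat.card (DF Q n) = ((Fintype.card Q * (3 * ((KK Q n).factorial + KK Q n + 2)) ^ 2
      + 1) ^ (2 * (Fintype.card Q * (2 * (2 * KK Q n + 2))))) ^
      (((Fintype.card Q * (2 * KK Q n + 1) + 1) ^ Fintype.card Q) ^ 2) := by
    rw [Nat.card_fun, Nat.card_fun, e1, e2, e3]
  rw [← Nat.card_eq_fintype_card, Nat.card_prod, Nat.card_prod, e4, Nat.card_eq_fintype_card,
    Nat.card_eq_fintype_card, Fintype.card_fin, Fintype.card_fin]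

/-- the data -/
noncomputable def dat {Q A : Type} [Fintype Q] (M : DM Q A) (h z : A) (n N : ℕ) : DD Q n :=
  (⟨min N (4 * KK Q n + 10), by omega⟩,
   ⟨N % (KK Q n).factorial, Nat.mod_lt _ (Nat.factorial_pos _)⟩,
   fun τ s => Out M h z n N τ (st n N s))

theorem lower {Q A : Type} [Fintype Q] (δ : Trans Q A) (hδ : ∀ q s, (δ q s).Subsingleton)
    (q0 : Q) (F : Set Q) (h z : A) (n N N' : ℕ)
    (hdat : dat (dm δ F) h z n N = dat (dm δ F) h z n N') (w : List A) (hw : w.length = n) :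
    AccN δ q0 F (w ++ h :: List.replicate N z) ↔
      AccN δ q0 F (w ++ h :: List.replicate N' z) := by
  have e1 : min N (4 * KK Q n + 10) = min N' (4 * KK Q n + 10) :=
    congrArg (fun p : DD Q n => (p.1 : ℕ)) hdat
  have e2 : N % (KK Q n).factorial = N' % (KK Q n).factorial :=
    congrArg (fun p : DD Q n => (p.2.1 : ℕ)) hdat
  have e3 : (fun τ s => Out (dm δ F) h z n N τ (st n N s)) =
      (fun τ s => Out (dm δ F) h z n N' τ (st n N' s)) :=
    congrArg (fun p : DD Q n => p.2.2) hdat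
  by_cases hsmall : N < 4 * KK Q n + 10 ∨ N' < 4 * KK Q n + 10
  · have : N = N' := by omega
    rw [this]
  push Not at hsmall
  subst hw
  rw [conv, conv]
  obtain ⟨m1, m2⟩ := tp_markers w h z N
  obtain ⟨m3, m4⟩ := tp_markers w h z N'
  rw [det_iff δ hδ q0 F _ _ _ (by omega) m1 m2, det_iff δ hδ q0 F _ _ _ (by omega) m3 m4]
  refine lb_core (dm δ F) (wl w) h z w.length N N' q0 ?_ ?_ hsmall.1 hsmall.2 ?_
  · unfold wl
    rw [if_pos (by omega)]
  · have : (N : ℤ) ≡ N' [ZMOD ((KK Q w.length).factorial : ℕ)] := by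
      unfold Int.ModEq
      exact_mod_cast e2
    exact this.dvd
  · intro s
    exact congrFun (congrFun e3 _) s

end Pool.Agent.Lib.MP6fae94
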