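import Pool.Agent.Lib.MP_6fae94_lc.Code
import Pool.Agent.Lib.MP_6fae94_lc.Lower

set_option autoImplicit false

namespace Pool.Agent.Lib.MP6fae94

theorem sq_le_two_pow (c : ℕ) (hc : 4 ≤ c) : c * c ≤ 2 ^ c := by
  induction c, hc using Nat.le_induction with
  | base => norm_num
  | succ c hc ih =>
    rw [pow_succ]
    nlinarith

theorem growth (κ e : ℕ) : ∃ c : ℕ, (κ * (6 ^ c + 2) + 20) ^ e < 2 ^ (2 ^ c) := by
  set s := 3 * κ + 20 with hs
  refine ⟨e * (s + 3) + 4, ?_⟩
  set c := e * (s + 3) + 4 with hc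
  have h1 : κ * (6 ^ c + 2) + 20 ≤ 2 ^ (s + 3 * c) := by
    have h6 : 1 ≤ 6 ^ c := Nat.one_le_pow _ _ (by norm_num)
    calc κ * (6 ^ c + 2) + 20 ≤ κ * (3 * 6 ^ c) + 20 * 6 ^ c := by
          gcongr
          · omega
          · omega
      _ = s * 6 ^ c := by rw [hs]; ring
      _ ≤ 2 ^ s * 8 ^ c := by
          gcongr
          · exact Nat.lt_two_pow_self.le
          · norm_num
      _ = 2 ^ (s + 3 * c) := by
          have h8 : (8 : ℕ) = 2 ^ 3 := by norm_num
          rw [pow_add 2 s (3 * c), h8, ← pow_mul]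
  calc (κ * (6 ^ c + 2) + 20) ^ e ≤ (2 ^ (s + 3 * c)) ^ e := by gcongr
    _ = 2 ^ ((s + 3 * c) * e) := by rw [← pow_mul]
    _ < 2 ^ (2 ^ c) := by
        apply Nat.pow_lt_pow_right (by norm_num)
        have h2 : c * c ≤ 2 ^ c := sq_le_two_pow c (by omega)
        refine lt_of_lt_of_le ?_ h2
        have h3 : (s + 3 * c) * e ≤ c * (e * (s + 3)) := by
          have hc1 : 1 ≤ c := by omega
          calc (s + 3 * c) * e ≤ (s * c + 3 * c) * e := by
                gcongr
                exact Nat.le_mul_of_pos_right s hc1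
            _ = c * (e * (s + 3)) := by ring
        have h4 : e * (s + 3) < c := by omega
        have h5 : 0 < c := by omega
        calc (s + 3 * c) * e ≤ c * (e * (s + 3)) := h3
          _ < c * c := by gcongr

theorem two_heads :
    ¬ (∃ (Q : Type) (_ : Fintype Q) (q0 : Q) (F : Set Q) (δ : Trans Q Ltr),
      (∀ q s, (δ q s).Subsingleton) ∧
      ∀ u : List Ltr, AccN del St.I0 {St.acc} u ↔ AccN δ q0 F u) := by
  rintro ⟨Q, _, q0, F, δ, hδ, hacc⟩
  obtain ⟨c, hc⟩ := growth (Fintype.card Q) (6 * Fintype.card Q + 7)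
  have hcard : Fintype.card (DD Q (6 ^ c)) < Fintype.card (Finset (Fin (2 ^ c) → Bool)) := by
    refine (card_DD Q (6 ^ c)).trans_lt ?_
    rw [Fintype.card_finset, Fintype.card_fun, Fintype.card_bool, Fintype.card_fin]
    exact Nat.pow_lt_pow_right (by norm_num) hc
  obtain ⟨F1, F2, hne, heq⟩ := Fintype.exists_ne_map_eq_of_card_lt
    (fun FF : Finset (Fin (2 ^ c) → Bool) =>
      dat (dm δ F) Ltr.hash Ltr.z (6 ^ c) (code c (FF.toList.map (ext c)))) hcard
  refine hne (Finset.ext fun r => ?_)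
  have key : ∀ FF : Finset (Fin (2 ^ c) → Bool),
      AccN δ q0 F (enc c (ext c r) ++ Ltr.hash ::
        List.replicate (code c (FF.toList.map (ext c))) Ltr.z) ↔ r ∈ FF := by
    intro FF
    rw [← hacc, conv, enc_len]
    exact upper c FF r
  rw [← key F1, ← key F2]
  exact lower δ hδ q0 F Ltr.hash Ltr.z (6 ^ c) _ _ heq (enc c (ext c r)) (enc_len c _)

end Pool.Agent.Lib.MP6fae94
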