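import Pool.Agent.Lib.MP_6fae94_lc.Mid

set_option autoImplicit false

namespace Pool.Agent.Lib.MP6fae94

section
variable {Q A : Type} [Fintype Q] (M : DM Q A)

/-- the size of the part of the configuration space inside the word -/
abbrev KK (Q : Type) [Fintype Q] (n : ℕ) : ℕ := Fintype.card Q * (n + 1)

/-- a bound for the exact data -/
abbrev BB (Q : Type) [Fintype Q] (n : ℕ) : ℕ := (KK Q n).factorial + KK Q n + 2

/-- excursion tables -/
abbrev TAU (Q : Type) [Fintype Q] (n : ℕ) : Type :=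
  Fin 2 → Q → Option (Q × Fin (2 * KK Q n + 1))

/-- the accelerated steps outside the word -/
def JR (h z : A) (n N : ℕ) (τ : TAU Q n) (c c1 : Q × (Fin 2 → ℤ)) : Prop :=
  c.1 ∉ M.acc ∧
    (((∀ i, 0 ≤ c.2 i) ∧ c1 = stp M (tp (fun _ => Sum.inl false) h z N) c) ∨
    ∃ r, c.2 r = -1 ∧ ((KK Q n : ℕ) : ℤ) < c.2 (oth r) ∧ c.2 (oth r) + (KK Q n : ℕ) < N + 1 ∧
      ∃ q' v, τ r c.1 = some (q', v) ∧
        c1 = (q', mk r 0 (c.2 (oth r) + (((v : ℕ) : ℤ) - (KK Q n : ℕ)))))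

/-- stopping configurations -/
def Stop (h z : A) (n N : ℕ) (τ : TAU Q n) (c : Q × (Fin 2 → ℤ)) : Prop :=
  ∀ c1, ¬ JR M h z n N τ c c1

/-- abstraction of a position -/
def pa (K N : ℕ) (y : ℤ) : ℕ × ℕ :=
  if y ≤ K then (0, (y + 1).toNat)
  else if (N : ℤ) + 1 - y ≤ K then (1, ((N : ℤ) + 1 - y).toNat)
  else (2, (y % (K.factorial : ℕ)).toNat)

theorem pa_bound (K N : ℕ) (y : ℤ) : (pa K N y).1 < 3 ∧ (pa K N y).2 < K.factorial + K + 2 := by
  unfold pa
  have hK : 0 < K.factorial := K.factorial_pos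
  split_ifs with h1 h2
  · constructor
    · norm_num
    · simp only; omega
  · constructor
    · norm_num
    · simp only; omega
  · constructor
    · norm_num
    · have h3 := Int.emod_lt_of_pos y (show (0 : ℤ) < (K.factorial : ℕ) by exact_mod_cast hK)
      have h4 := Int.emod_nonneg y (show ((K.factorial : ℕ) : ℤ) ≠ 0 by
        exact_mod_cast hK.ne')
      simp only; omega

/-- the finite version of `pa` -/
def paF (K N : ℕ) (y : ℤ) : Fin 3 × Fin (K.factorial + K + 2) :=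
  (⟨(pa K N y).1, (pa_bound K N y).1⟩, ⟨(pa K N y).2, (pa_bound K N y).2⟩)

theorem pa_eq (K N N' : ℕ) (y y' : ℤ) (hy : -1 ≤ y) (hyN : y ≤ N + 1) (hy' : -1 ≤ y')
    (hyN' : y' ≤ N' + 1) (h : paF K N y = paF K N' y') :
    (y = y' ∧ y ≤ K) ∨ ((N : ℤ) + 1 - y = N' + 1 - y' ∧ (N : ℤ) + 1 - y ≤ K) ∨
    ((K : ℤ) < y ∧ y + K < N + 1 ∧ (K : ℤ) < y' ∧ y' + K < N' + 1 ∧
      ((K.factorial : ℕ) : ℤ) ∣ y' - y) := by
  have h0 : pa K N y = pa K N' y' := by
    have h1 := congrArg (fun p => (p.1 : ℕ)) h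
    have h2 := congrArg (fun p => (p.2 : ℕ)) h
    exact Prod.ext h1 h2
  unfold pa at h0
  split_ifs at h0 with h1 h2 h3 h4 h5 h6 h7 h8 <;>
    simp only [Prod.mk.injEq] at h0 <;> try omega
  right; right
  refine ⟨by omega, by omega, by omega, by omega, ?_⟩
  have hK : 0 < K.factorial := K.factorial_pos
  have h9 := Int.emod_nonneg y (show ((K.factorial : ℕ) : ℤ) ≠ 0 by exact_mod_cast hK.ne')
  have h10 := Int.emod_nonneg y' (show ((K.factorial : ℕ) : ℤ) ≠ 0 by exact_mod_cast hK.ne')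
  have h11 : y' % (K.factorial : ℕ) = y % (K.factorial : ℕ) := by omega
  have h12 : y ≡ y' [ZMOD ((K.factorial : ℕ) : ℤ)] := h11.symm
  exact h12.dvd

/-- the outcome of the accelerated run -/
noncomputable def Out (h z : A) (n N : ℕ) (τ : TAU Q n) (c : Q × (Fin 2 → ℤ)) :
    Option (Q × (Fin 2 → Fin 3 × Fin (BB Q n))) :=
  open Classical in
  if hex : ∃ c1, Relation.ReflTransGen (JR M h z n N τ) c c1 ∧ Stop M h z n N τ c1 then
    some ((Classical.choose hex).1, fun i => paF (KK Q n) N ((Classical.choose hex).2 i))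
  else none

theorem Out_none (h z : A) (n N : ℕ) (τ : TAU Q n) (c : Q × (Fin 2 → ℤ))
    (ho : Out M h z n N τ c = none) :
    ¬ ∃ c1, Relation.ReflTransGen (JR M h z n N τ) c c1 ∧ Stop M h z n N τ c1 := by
  unfold Out at ho
  split_ifs at ho with hex
  exact hex

theorem Out_some (h z : A) (n N : ℕ) (τ : TAU Q n) (c : Q × (Fin 2 → ℤ))
    (a : Q × (Fin 2 → Fin 3 × Fin (BB Q n)))
    (ho : Out M h z n N τ c = some a) :
    ∃ c1, Relation.ReflTransGen (JR M h z n N τ) c c1 ∧ Stop M h z n N τ c1 ∧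
      c1.1 = a.1 ∧ ∀ i, paF (KK Q n) N (c1.2 i) = a.2 i := by
  unfold Out at ho
  split_ifs at ho with hex
  refine ⟨Classical.choose hex, (Classical.choose_spec hex).1, (Classical.choose_spec hex).2, ?_⟩
  simp only [Option.some.injEq] at ho
  rw [← ho]
  exact ⟨rfl, fun i => rfl⟩

/-- the table of a word -/
noncomputable def tauW (W : ℤ → Bool ⊕ A) (z : A) (n : ℕ) : TAU Q n := fun r q =>
  (ex M W z r (q, -1)).map
    (fun p : Q × ℤ => (p.1, Fin.ofNat (2 * KK Q n + 1) (p.2 + ((KK Q n : ℕ) : ℤ)).toNat))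

theorem tau_none (W : ℤ → Bool ⊕ A) (z : A) (n : ℕ) (r : Fin 2) (q : Q)
    (ht : tauW M W z n r q = none) : ex M W z r (q, -1) = none := by
  unfold tauW at ht
  exact Option.map_eq_none_iff.1 ht

theorem tau_some (W : ℤ → Bool ⊕ A) (z : A) (n : ℕ) (hW : W (-(n : ℤ) - 1) = Sum.inl false)
    (r : Fin 2) (q q' : Q) (v : Fin (2 * KK Q n + 1))
    (ht : tauW M W z n r q = some (q', v)) :
    ex M W z r (q, -1) = some (q', ((v : ℕ) : ℤ) - (KK Q n : ℕ)) := by
  unfold tauW at ht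
  rw [Option.map_eq_some_iff] at ht
  obtain ⟨⟨q1, d⟩, h1, h2⟩ := ht
  have hd0 : |d| ≤ ((KK Q n : ℕ) : ℤ) :=
    (lemA M W z n hW r q (-1) (by omega) (by omega) q1 d h1).1
  have hd := abs_le.1 hd0
  simp only [Prod.mk.injEq] at h2
  obtain ⟨h2, h3⟩ := h2
  subst h2
  rw [h1, ← h3]
  simp only [Fin.ofNat]
  rw [Nat.mod_eq_of_lt (by omega)]
  congr 2
  omega

theorem tp_nonneg (W W' : ℤ → Bool ⊕ A) (h z : A) (N : ℕ) (x : ℤ) (hx : 0 ≤ x) :
    tp W h z N x = tp W' h z N x := by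
  unfold tp
  rw [if_neg (by omega : ¬ x < 0), if_neg (by omega : ¬ x < 0)]

theorem J1 (W : ℤ → Bool ⊕ A) (h z : A) (n N : ℕ) (hW : W (-(n : ℤ) - 1) = Sum.inl false)
    (c c1 : Q × (Fin 2 → ℤ)) (hj : JR M h z n N (tauW M W z n) c c1) :
    ∃ t, 0 < t ∧ (stp M (tp W h z N))^[t] c = c1 := by
  obtain ⟨_, ⟨h0, rfl⟩ | ⟨r, h1, h2, h3, q', v, h4, rfl⟩⟩ := hj
  · refine ⟨1, one_pos, ?_⟩
    rw [Function.iterate_one]
    unfold stp
    have : (fun i => tp W h z N (c.2 i)) =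
        (fun i => tp (fun _ => Sum.inl false) h z N (c.2 i)) := by
      funext i
      exact tp_nonneg _ _ _ _ _ _ (h0 i)
    rw [this]
  · have h5 := tau_some M W z n hW r c.1 q' v h4
    obtain ⟨_, t, ht, h6⟩ := lemA M W z n hW r c.1 (-1) (by omega) (by omega) q' _ h5
    refine ⟨t, ht, ?_⟩
    have h7 : c = (c.1, mk r (-1) (c.2 (oth r))) := by
      refine Prod.ext rfl ?_
      have := eq_mk r c.2
      rw [h1] at this
      exact this
    conv_lhs => rw [h7]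
    exact h6 h N (c.2 (oth r)) h2 h3

theorem J1s (W : ℤ → Bool ⊕ A) (h z : A) (n N : ℕ) (hW : W (-(n : ℤ) - 1) = Sum.inl false)
    (c c1 : Q × (Fin 2 → ℤ))
    (hj : Relation.ReflTransGen (JR M h z n N (tauW M W z n)) c c1) :
    ∃ t, (stp M (tp W h z N))^[t] c = c1 := by
  induction hj with
  | refl => exact ⟨0, rfl⟩
  | tail _ h2 ih =>
    obtain ⟨t, ht⟩ := ih
    obtain ⟨s, _, hs⟩ := J1 M W h z n N hW _ _ h2
    refine ⟨s + t, ?_⟩
    rw [Function.iterate_add_apply, ht, hs]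

/-- a reachable stop, starting from a non-stop: positive time -/
theorem J1p (W : ℤ → Bool ⊕ A) (h z : A) (n N : ℕ) (hW : W (-(n : ℤ) - 1) = Sum.inl false)
    (c c1 : Q × (Fin 2 → ℤ)) (hc : ¬ Stop M h z n N (tauW M W z n) c)
    (hc1 : Stop M h z n N (tauW M W z n) c1)
    (hj : Relation.ReflTransGen (JR M h z n N (tauW M W z n)) c c1) :
    ∃ t, 0 < t ∧ (stp M (tp W h z N))^[t] c = c1 := by
  rcases Relation.ReflTransGen.cases_head hj with rfl | ⟨c2, h1, h2⟩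
  · exact absurd hc1 hc
  · obtain ⟨s, hs0, hs⟩ := J1 M W h z n N hW _ _ h1
    obtain ⟨t, ht⟩ := J1s M W h z n N hW _ _ h2
    exact ⟨t + s, by omega, by rw [Function.iterate_add_apply, hs, ht]⟩

theorem J2 (W : ℤ → Bool ⊕ A) (h z : A) (n N : ℕ) (hW : W (-(n : ℤ) - 1) = Sum.inl false)
    (t : ℕ) : ∀ c : Q × (Fin 2 → ℤ),
    (¬ ∃ c1, Relation.ReflTransGen (JR M h z n N (tauW M W z n)) c c1 ∧
      Stop M h z n N (tauW M W z n) c1) →
    ((stp M (tp W h z N))^[t] c).1 ∉ M.acc := by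
  induction t using Nat.strong_induction_on with
  | _ t ih =>
    intro c hc hacc
    have hns : ¬ Stop M h z n N (tauW M W z n) c := fun hs =>
      hc ⟨c, Relation.ReflTransGen.refl, hs⟩
    unfold Stop at hns
    push Not at hns
    obtain ⟨c1, hc1⟩ := hns
    obtain ⟨s, hs0, hs⟩ := J1 M W h z n N hW _ _ hc1
    rcases Nat.eq_zero_or_pos t with rfl | hpos
    · exact hc1.1 hacc
    · have h1 : ((stp M (tp W h z N))^[t - s] c1).1 ∈ M.acc := by
        rw [← hs, ← Function.iterate_add_apply]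
        exact acc_mono (stp M (tp W h z N)) (fun c => c.1 ∈ M.acc)
          (fun c hc => stp_acc' M _ c hc) c t _ (by omega) hacc
      refine ih (t - s) (by omega) c1 ?_ h1
      rintro ⟨c2, h2, h3⟩
      exact hc ⟨c2, Relation.ReflTransGen.head hc1 h2, h3⟩

/-- the invariant of the accelerated run -/
theorem J_inv (h z : A) (n N : ℕ) (τ : TAU Q n) (c c1 : Q × (Fin 2 → ℤ))
    (hc : ∀ i, -1 ≤ c.2 i ∧ c.2 i ≤ N + 1) (hj : JR M h z n N τ c c1) :
    ∀ i, -1 ≤ c1.2 i ∧ c1.2 i ≤ N + 1 := by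
  obtain ⟨_, ⟨h0, rfl⟩ | ⟨r, h1, h2, h3, q', v, h4, rfl⟩⟩ := hj
  · intro i
    have h1 := abs_le.1 (M.mv c.1 (fun i => tp (fun _ => Sum.inl false) h z N (c.2 i)) i)
    have h2 := hc i
    have h3 := h0 i
    simp only [stp]
    refine ⟨by linarith, ?_⟩
    rcases eq_or_lt_of_le h2.2 with h4 | h4
    · have := M.noR c.1 (fun i => tp (fun _ => Sum.inl false) h z N (c.2 i)) i (by
        simp only [tp]
        rw [if_neg (by omega), if_neg (by omega), if_neg (by omega)])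
      linarith
    · omega
  · intro i
    have hv := v.2
    rcases eq_or_oth r i with rfl | rfl
    · simp only [mk_self]; omega
    · simp only [mk_oth]; omega

theorem J_invs (h z : A) (n N : ℕ) (τ : TAU Q n) (c c1 : Q × (Fin 2 → ℤ))
    (hc : ∀ i, -1 ≤ c.2 i ∧ c.2 i ≤ N + 1)
    (hj : Relation.ReflTransGen (JR M h z n N τ) c c1) :
    ∀ i, -1 ≤ c1.2 i ∧ c1.2 i ≤ N + 1 := by
  induction hj with
  | refl => exact hc
  | tail _ h2 ih => exact J_inv M h z n N τ _ _ ih h2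

/-- the starting configurations outside the word -/
def st (n N : ℕ) (s : Fin 2 × Q × Bool × Fin (2 * KK Q n + 2)) : Q × (Fin 2 → ℤ) :=
  (s.2.1, mk s.1 0 (if s.2.2.1 then ((s.2.2.2 : ℕ) : ℤ) else N + 1 - ((s.2.2.2 : ℕ) : ℤ)))

end

end Pool.Agent.Lib.MP6fae94
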