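import Mathlib

set_option autoImplicit false

namespace Pool.Agent.Lib.MP6fae94

/-- absorbing acceptance propagates -/
theorem acc_mono {C : Type*} (f : C → C) (a : C → Prop) (hf : ∀ c, a c → a (f c)) (c : C)
    (s t : ℕ) (hst : s ≤ t) (h : a (f^[s] c)) : a (f^[t] c) := by
  obtain ⟨k, rfl⟩ := Nat.exists_eq_add_of_le hst
  clear hst
  induction k with
  | zero => exact h
  | succ k ih =>
    rw [← Nat.add_assoc, Function.iterate_succ_apply']
    exact hf _ ih

/-- acceptance after `i` steps is acceptance -/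
theorem acc_shift {C : Type*} (f : C → C) (a : C → Prop) (hf : ∀ c, a c → a (f c)) (c : C)
    (i : ℕ) : (∃ t, a (f^[t] c)) ↔ ∃ t, a (f^[t] (f^[i] c)) := by
  constructor
  · rintro ⟨t, ht⟩
    refine ⟨t, ?_⟩
    rw [← Function.iterate_add_apply]
    exact acc_mono f a hf c t (t + i) (by omega) ht
  · rintro ⟨t, ht⟩
    rw [← Function.iterate_add_apply] at ht
    exact ⟨_, ht⟩

/-- one direction of the simulation lemma -/
theorem sim_aux {C C' : Type*} (f : C → C) (g : C' → C') (af : C → Prop) (ag : C' → Prop)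
    (hf : ∀ c, af c → af (f c)) (hg : ∀ c, ag c → ag (g c)) (R : C → C' → Prop)
    (hR : ∀ c c', R c c' → af c → ag c')
    (prog : ∀ c c', R c c' → ((∃ t, af (f^[t] c)) → (∃ t, ag (g^[t] c'))) ∨
      ∃ i j, 0 < i ∧ R (f^[i] c) (g^[j] c')) :
    ∀ t c c', R c c' → af (f^[t] c) → ∃ t, ag (g^[t] c') := by
  intro t
  induction t using Nat.strong_induction_on with
  | _ t ih =>
    intro c c' hcc ht
    rcases Nat.eq_zero_or_pos t with rfl | hpos
    · exact ⟨0, hR _ _ hcc ht⟩
    · rcases prog c c' hcc with h | ⟨i, j, hi, hR'⟩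
      · exact h ⟨t, ht⟩
      · have h1 : af (f^[t - i] (f^[i] c)) := by
          rw [← Function.iterate_add_apply]
          exact acc_mono f af hf c t _ (by omega) ht
        obtain ⟨s, hs⟩ := ih (t - i) (by omega) _ _ hR' h1
        exact (acc_shift g ag hg c' j).2 ⟨s, hs⟩

/-- the simulation lemma -/
theorem sim {C C' : Type*} (f : C → C) (g : C' → C') (af : C → Prop) (ag : C' → Prop)
    (hf : ∀ c, af c → af (f c)) (hg : ∀ c, ag c → ag (g c)) (R : C → C' → Prop)
    (hR : ∀ c c', R c c' → (af c ↔ ag c'))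
    (prog : ∀ c c', R c c' → ((∃ t, af (f^[t] c)) ↔ (∃ t, ag (g^[t] c'))) ∨
      ∃ i j, 0 < i ∧ 0 < j ∧ R (f^[i] c) (g^[j] c')) (c : C) (c' : C') (h : R c c') :
    (∃ t, af (f^[t] c)) ↔ (∃ t, ag (g^[t] c')) := by
  constructor
  · rintro ⟨t, ht⟩
    refine sim_aux f g af ag hf hg R (fun c c' h => (hR c c' h).1) ?_ t c c' h ht
    intro c c' h
    rcases prog c c' h with h | ⟨i, j, hi, hj, hr⟩
    · exact Or.inl h.1
    · exact Or.inr ⟨i, j, hi, hr⟩
  · rintro ⟨t, ht⟩
    refine sim_aux g f ag af hg hf (fun a b => R b a) (fun c c' h => (hR c' c h).2) ?_ t c' c h ht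
    intro c c' h
    rcases prog c' c h with h | ⟨i, j, hi, hj, hr⟩
    · exact Or.inl h.2
    · exact Or.inr ⟨j, i, hj, hr⟩

end Pool.Agent.Lib.MP6fae94
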