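import Pool.Agent.Lib.MP_6fae94_lc.Defs
import Pool.Agent.Lib.MP_6fae94_lc.Sim
import Pool.Agent.Lib.MP_6fae94_lc.Drift

set_option autoImplicit false

namespace Pool.Agent.Lib.MP6fae94

/-- a total deterministic two-head machine -/
structure DM (Q A : Type) where
  tr : Q → (Fin 2 → Bool ⊕ A) → Q × (Fin 2 → ℤ)
  acc : Set Q
  mv : ∀ q s i, |(tr q s).2 i| ≤ 1
  noL : ∀ q s i, s i = Sum.inl false → 0 ≤ (tr q s).2 i
  noR : ∀ q s i, s i = Sum.inl true → (tr q s).2 i ≤ 0
  ab : ∀ q ∈ acc, ∀ s, tr q s = (q, 0)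

/-- the other head -/
def oth (r : Fin 2) : Fin 2 := if r = 0 then 1 else 0

theorem oth_ne (r : Fin 2) : oth r ≠ r := by
  revert r; decide

theorem eq_or_oth (r i : Fin 2) : i = r ∨ i = oth r := by
  revert r i; decide

theorem oth_oth (r : Fin 2) : oth (oth r) = r := by
  revert r; decide

/-- positions: head `r` at `x`, the other at `y` -/
def mk (r : Fin 2) (x y : ℤ) : Fin 2 → ℤ := fun i => if i = r then x else y

@[simp] theorem mk_self (r : Fin 2) (x y : ℤ) : mk r x y r = x := by simp [mk]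

@[simp] theorem mk_oth (r : Fin 2) (x y : ℤ) : mk r x y (oth r) = y := by
  simp [mk, oth_ne]

theorem eq_mk (r : Fin 2) (p : Fin 2 → ℤ) : p = mk r (p r) (p (oth r)) := by
  funext i
  rcases eq_or_oth r i with rfl | rfl <;> simp

section
variable {Q A : Type} (M : DM Q A)

/-- the step on the tape `T` -/
def stp (T : ℤ → Bool ⊕ A) (c : Q × (Fin 2 → ℤ)) : Q × (Fin 2 → ℤ) :=
  ((M.tr c.1 (fun i => T (c.2 i))).1, fun i => c.2 i + (M.tr c.1 (fun i => T (c.2 i))).2 i)

theorem stp_acc (T : ℤ → Bool ⊕ A) (c : Q × (Fin 2 → ℤ)) (h : c.1 ∈ M.acc) :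
    stp M T c = c := by
  unfold stp
  rw [M.ab _ h]
  ext i <;> simp

theorem stp_acc' (T : ℤ → Bool ⊕ A) (c : Q × (Fin 2 → ℤ)) (h : c.1 ∈ M.acc) :
    (stp M T c).1 ∈ M.acc := by
  rw [stp_acc M T c h]; exact h

/-- the autonomous map of head `r` while the other head reads `z` -/
def au (W : ℤ → Bool ⊕ A) (z : A) (r : Fin 2) (s : Q × ℤ) : Q × ℤ :=
  ((M.tr s.1 (fun i => if i = r then W s.2 else Sum.inr z)).1,
    s.2 + (M.tr s.1 (fun i => if i = r then W s.2 else Sum.inr z)).2 r)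

/-- displacement of the other head -/
def dv (W : ℤ → Bool ⊕ A) (z : A) (r : Fin 2) (s : Q × ℤ) : ℤ :=
  (M.tr s.1 (fun i => if i = r then W s.2 else Sum.inr z)).2 (oth r)

theorem dv_le (W : ℤ → Bool ⊕ A) (z : A) (r : Fin 2) (s : Q × ℤ) : |dv M W z r s| ≤ 1 :=
  M.mv _ _ _

/-- while in the middle the machine follows the autonomous map -/
theorem run_mid (W : ℤ → Bool ⊕ A) (h z : A) (N : ℕ) (r : Fin 2) (q : Q) (x y : ℤ) (t : ℕ)
    (H : ∀ i < t, ((au M W z r)^[i] (q, x)).2 < 0 ∧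
      0 < y + dsp (au M W z r) (dv M W z r) (q, x) i ∧
      y + dsp (au M W z r) (dv M W z r) (q, x) i ≤ N) :
    (stp M (tp W h z N))^[t] (q, mk r x y) =
      (((au M W z r)^[t] (q, x)).1,
        mk r ((au M W z r)^[t] (q, x)).2 (y + dsp (au M W z r) (dv M W z r) (q, x) t)) := by
  induction t with
  | zero => simp [dsp_zero]
  | succ t ih =>
    rw [Function.iterate_succ_apply', ih (fun i hi => H i (by omega)),
      Function.iterate_succ_apply', dsp_succ]
    obtain ⟨h1, h2, h3⟩ := H t (by omega)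
    set s := (au M W z r)^[t] (q, x)
    set D := dsp (au M W z r) (dv M W z r) (q, x) t
    have hsym : (fun i => tp W h z N (mk r s.2 (y + D) i)) =
        (fun i => if i = r then W s.2 else Sum.inr z) := by
      funext i
      rcases eq_or_oth r i with rfl | rfl
      · simp [tp, h1]
      · rw [mk_oth, if_neg (oth_ne r)]
        unfold tp
        rw [if_neg (by omega), if_neg (by omega), if_pos h3]
    unfold stp
    simp only [hsym]
    refine Prod.ext rfl ?_
    funext i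
    rcases eq_or_oth r i with rfl | rfl
    · simp [au]
    · simp [dv, add_assoc]

/-- where the excursion ends, if it does -/
noncomputable def ex (W : ℤ → Bool ⊕ A) (z : A) (r : Fin 2) (s : Q × ℤ) : Option (Q × ℤ) :=
  open Classical in
  if h : ∃ t, 0 ≤ ((au M W z r)^[t] s).2 then
    some (((au M W z r)^[Nat.find h] s).1, dsp (au M W z r) (dv M W z r) s (Nat.find h))
  else none

theorem au_ge (W : ℤ → Bool ⊕ A) (z : A) (n : ℕ) (hW : W (-(n : ℤ) - 1) = Sum.inl false)
    (r : Fin 2) (s : Q × ℤ) (hs : -(n : ℤ) - 1 ≤ s.2) : -(n : ℤ) - 1 ≤ (au M W z r s).2 := by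
  unfold au
  rcases eq_or_lt_of_le hs with h | h
  · have := M.noL s.1 (fun i => if i = r then W s.2 else Sum.inr z) r (by
      simp only [if_pos]; rw [← h]; exact hW)
    simp only
    linarith
  · have := (abs_le.1 (M.mv s.1 (fun i => if i = r then W s.2 else Sum.inr z) r)).1
    simp only
    omega

theorem it_ge (W : ℤ → Bool ⊕ A) (z : A) (n : ℕ) (hW : W (-(n : ℤ) - 1) = Sum.inl false)
    (r : Fin 2) (s : Q × ℤ) (hs : -(n : ℤ) - 1 ≤ s.2) (t : ℕ) :
    -(n : ℤ) - 1 ≤ ((au M W z r)^[t] s).2 := by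
  induction t with
  | zero => exact hs
  | succ t ih =>
    rw [Function.iterate_succ_apply']
    exact au_ge M W z n hW r _ ih

/-- pigeonhole -/
theorem php [Fintype Q] (n : ℕ) (a : ℕ → Q × ℤ)
    (ha : ∀ i ≤ Fintype.card Q * (n + 1), -(n : ℤ) - 1 ≤ (a i).2 ∧ (a i).2 < 0) :
    ∃ i j, i < j ∧ j ≤ Fintype.card Q * (n + 1) ∧ a i = a j := by
  classical
  set K := Fintype.card Q * (n + 1) with hK
  have hcard : ((Finset.univ : Finset Q) ×ˢ Finset.Icc (-(n : ℤ) - 1) (-1)).card <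
      (Finset.range (K + 1)).card := by
    rw [Finset.card_product, Finset.card_range, Int.card_Icc, Finset.card_univ]
    have : (-1 + 1 - (-(n : ℤ) - 1)).toNat = n + 1 := by omega
    rw [this, hK]
    omega
  obtain ⟨i, hi, j, hj, hij, he⟩ := Finset.exists_ne_map_eq_of_card_lt_of_maps_to hcard
    (f := a) (by
      intro i hi
      have hi' : i ≤ K := by
        have := Finset.mem_coe.1 hi
        rw [Finset.mem_range] at this
        omega
      have := ha i hi'
      simp only [Finset.coe_product, Finset.coe_univ, Set.mem_prod, Set.mem_univ, true_and,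
        Finset.coe_Icc, Set.mem_Icc]
      omega)
  rw [Finset.mem_range] at hi hj
  rcases lt_or_gt_of_ne hij with h | h
  · exact ⟨i, j, h, by omega, he⟩
  · exact ⟨j, i, h, by omega, he.symm⟩

/-- exits happen within `K` steps -/
theorem ex_some [Fintype Q] (W : ℤ → Bool ⊕ A) (z : A) (n : ℕ)
    (hW : W (-(n : ℤ) - 1) = Sum.inl false) (r : Fin 2) (q : Q) (x : ℤ)
    (hx : -(n : ℤ) - 1 ≤ x) (hx0 : x < 0) (q' : Q) (d : ℤ)
    (he : ex M W z r (q, x) = some (q', d)) :
    ∃ t, 0 < t ∧ t ≤ Fintype.card Q * (n + 1) ∧ (au M W z r)^[t] (q, x) = (q', 0) ∧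
      dsp (au M W z r) (dv M W z r) (q, x) t = d ∧
      ∀ i < t, ((au M W z r)^[i] (q, x)).2 < 0 := by
  classical
  unfold ex at he
  split_ifs at he with hex
  simp only [Option.some.injEq, Prod.mk.injEq] at he
  have hspec := Nat.find_spec hex
  have hmin : ∀ i < Nat.find hex, ((au M W z r)^[i] (q, x)).2 < 0 := fun i hi => by
    have := Nat.find_min hex hi
    omega
  set t := Nat.find hex with ht
  have ht0 : 0 < t := by
    rcases Nat.eq_zero_or_pos t with h | h
    · rw [h] at hspec; simp at hspec; omega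
    · exact h
  refine ⟨t, ht0, ?_, ?_, ?_, hmin⟩
  · by_contra hlt
    push Not at hlt
    obtain ⟨i, j, hij, hj, he⟩ := php n (fun i => (au M W z r)^[i] (q, x)) (fun i hi =>
      ⟨it_ge M W z n hW r (q, x) hx i, hmin i (by omega)⟩)
    have hp : (au M W z r)^[i + (j - i)] (q, x) = (au M W z r)^[i] (q, x) := by
      rw [show i + (j - i) = j by omega]
      exact he.symm
    have h2 := per_state (au M W z r) (q, x) i (j - i) hp (t - (j - i)) (by omega)
    rw [show t - (j - i) + (j - i) = t by omega] at h2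
    have h3 := hmin (t - (j - i)) (by omega)
    rw [← h2] at h3
    omega
  · refine Prod.ext he.1 ?_
    obtain ⟨u, hu⟩ : ∃ u, t = u + 1 := ⟨t - 1, by omega⟩
    have h1 := hmin u (by omega)
    have h2 : ((au M W z r)^[t] (q, x)).2 ≤ ((au M W z r)^[u] (q, x)).2 + 1 := by
      rw [hu, Function.iterate_succ_apply']
      set s := (au M W z r)^[u] (q, x)
      have := (abs_le.1 (M.mv s.1 (fun i => if i = r then W s.2 else Sum.inr z) r)).2
      unfold au
      simp only
      linarith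
    show ((au M W z r)^[t] (q, x)).2 = 0
    omega
  · exact he.2

/-- Lemma A -/
theorem lemA [Fintype Q] (W : ℤ → Bool ⊕ A) (z : A) (n : ℕ)
    (hW : W (-(n : ℤ) - 1) = Sum.inl false) (r : Fin 2) (q : Q) (x : ℤ)
    (hx : -(n : ℤ) - 1 ≤ x) (hx0 : x < 0) (q' : Q) (d : ℤ)
    (he : ex M W z r (q, x) = some (q', d)) :
    |d| ≤ (Fintype.card Q * (n + 1) : ℕ) ∧ ∃ t, 0 < t ∧ ∀ (h : A) (N : ℕ) (y : ℤ),
      ((Fintype.card Q * (n + 1) : ℕ) : ℤ) < y →
      y + (Fintype.card Q * (n + 1) : ℕ) < N + 1 →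
      (stp M (tp W h z N))^[t] (q, mk r x y) = (q', mk r 0 (y + d)) := by
  obtain ⟨t, ht0, htK, h1, h2, h3⟩ := ex_some M W z n hW r q x hx hx0 q' d he
  constructor
  · rw [← h2]
    refine (abs_dsp _ _ _ (dv_le M W z r) t).trans ?_
    exact_mod_cast htK
  · refine ⟨t, ht0, fun h N y hy hy' => ?_⟩
    rw [run_mid M W h z N r q x y t ?_, h1, h2]
    intro i hi
    have := abs_le.1 (abs_dsp (au M W z r) (dv M W z r) (q, x) (dv_le M W z r) i)
    refine ⟨h3 i hi, ?_, ?_⟩ <;> omega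

/-- Lemma B -/
theorem lemB [Fintype Q] (W : ℤ → Bool ⊕ A) (z : A) (n : ℕ)
    (hW : W (-(n : ℤ) - 1) = Sum.inl false) (r : Fin 2) (q : Q) (x : ℤ)
    (hx : -(n : ℤ) - 1 ≤ x)
    (he : ex M W z r (q, x) = none) (h : A) (N N' : ℕ) (y y' : ℤ)
    (hy : ((Fintype.card Q * (n + 1) : ℕ) : ℤ) < y)
    (hyN : y + (Fintype.card Q * (n + 1) : ℕ) < N + 1)
    (hy' : ((Fintype.card Q * (n + 1) : ℕ) : ℤ) < y')
    (hyN' : y' + (Fintype.card Q * (n + 1) : ℕ) < N' + 1)
    (hd : (((Fintype.card Q * (n + 1)).factorial : ℕ) : ℤ) ∣ y' - y)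
    (hdN : (((Fintype.card Q * (n + 1)).factorial : ℕ) : ℤ) ∣ (N' : ℤ) - N) :
    ((∃ t, ((stp M (tp W h z N))^[t] (q, mk r x y)).1 ∈ M.acc) ↔
      (∃ t, ((stp M (tp W h z N'))^[t] (q, mk r x y')).1 ∈ M.acc)) ∨
    ∃ t t', 0 < t ∧ 0 < t' ∧ ∃ q1 x1, -(n : ℤ) - 1 ≤ x1 ∧ x1 < 0 ∧
      (((stp M (tp W h z N))^[t] (q, mk r x y) = (q1, mk r x1 0) ∧
        (stp M (tp W h z N'))^[t'] (q, mk r x y') = (q1, mk r x1 0)) ∨
       ((stp M (tp W h z N))^[t] (q, mk r x y) = (q1, mk r x1 (N + 1)) ∧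
        (stp M (tp W h z N'))^[t'] (q, mk r x y') = (q1, mk r x1 (N' + 1)))) := by
  classical
  set K := Fintype.card Q * (n + 1) with hK
  have hneg : ∀ t, ((au M W z r)^[t] (q, x)).2 < 0 := by
    unfold ex at he
    split_ifs at he with hex
    push Not at hex
    exact hex
  obtain ⟨i, j, hij, hj, he⟩ := php n (fun i => (au M W z r)^[i] (q, x)) (fun i _ =>
      ⟨it_ge M W z n hW r (q, x) hx i, hneg i⟩)
  have hp : (au M W z r)^[i + (j - i)] (q, x) = (au M W z r)^[i] (q, x) := by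
    rw [show i + (j - i) = j by omega]
    exact he.symm
  rcases drift (au M W z r) (dv M W z r) (q, x) (dv_le M W z r) i (j - i) K (by omega)
    (by omega) hp with hb | ⟨hb, hb2⟩ | ⟨hb, hb2⟩
  · left
    have e1 : ∀ t, ((stp M (tp W h z N))^[t] (q, mk r x y)).1 =
        ((au M W z r)^[t] (q, x)).1 := fun t => by
      rw [run_mid M W h z N r q x y t ?_]
      intro i _
      have := abs_le.1 (hb i)
      refine ⟨hneg i, ?_, ?_⟩ <;> omega
    have e2 : ∀ t, ((stp M (tp W h z N'))^[t] (q, mk r x y')).1 =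
        ((au M W z r)^[t] (q, x)).1 := fun t => by
      rw [run_mid M W h z N' r q x y' t ?_]
      intro i _
      have := abs_le.1 (hb i)
      refine ⟨hneg i, ?_, ?_⟩ <;> omega
    simp only [e1, e2]
  · right
    obtain ⟨t, t', ⟨h1, h2⟩, ⟨h3, h4⟩, h5⟩ := hb2 y y' hy hy' hd
    have ht0 : 0 < t := by
      rcases Nat.eq_zero_or_pos t with h | h
      · rw [h, dsp_zero] at h1; omega
      · exact h
    have ht0' : 0 < t' := by
      rcases Nat.eq_zero_or_pos t' with h | h
      · rw [h, dsp_zero] at h3; omega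
      · exact h
    refine ⟨t, t', ht0, ht0', ((au M W z r)^[t] (q, x)).1, ((au M W z r)^[t] (q, x)).2,
      it_ge M W z n hW r (q, x) hx t, hneg t, Or.inl ⟨?_, ?_⟩⟩
    · rw [run_mid M W h z N r q x y t ?_, h1]
      · rw [show y + -y = 0 by ring]
      · intro i hi
        have := hb i
        have := h2 i hi
        refine ⟨hneg i, ?_, ?_⟩ <;> omega
    · rw [run_mid M W h z N' r q x y' t' ?_, h3, h5]
      · rw [show y' + -y' = 0 by ring]
      · intro i hi
        have := hb i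
        have := h4 i hi
        refine ⟨hneg i, ?_, ?_⟩ <;> omega
  · right
    obtain ⟨t, t', ⟨h1, h2⟩, ⟨h3, h4⟩, h5⟩ := hb2 (N + 1 - y) (N' + 1 - y')
      (by omega) (by omega) (by
        have : (N' : ℤ) + 1 - y' - (N + 1 - y) = (N' - N) - (y' - y) := by ring
        rw [this]
        exact dvd_sub hdN hd)
    have ht0 : 0 < t := by
      rcases Nat.eq_zero_or_pos t with h | h
      · rw [h, dsp_zero] at h1; omega
      · exact h
    have ht0' : 0 < t' := by
      rcases Nat.eq_zero_or_pos t' with h | h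
      · rw [h, dsp_zero] at h3; omega
      · exact h
    refine ⟨t, t', ht0, ht0', ((au M W z r)^[t] (q, x)).1, ((au M W z r)^[t] (q, x)).2,
      it_ge M W z n hW r (q, x) hx t, hneg t, Or.inr ⟨?_, ?_⟩⟩
    · rw [run_mid M W h z N r q x y t ?_, h1]
      · rw [show y + (N + 1 - y) = N + 1 by ring]
      · intro i hi
        have := hb i
        have := h2 i hi
        refine ⟨hneg i, ?_, ?_⟩ <;> omega
    · rw [run_mid M W h z N' r q x y' t' ?_, h3, h5]
      · rw [show y' + (N' + 1 - y') = N' + 1 by ring]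
      · intro i hi
        have := hb i
        have := h4 i hi
        refine ⟨hneg i, ?_, ?_⟩ <;> omega

end

end Pool.Agent.Lib.MP6fae94
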