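import Pool.Agent.Lib.MP_6fae94_lc.Defs

set_option autoImplicit false

namespace Pool.Agent.Lib.MP6fae94

/-- phases of the division loop -/
inductive Ph
  | S
  | Z (b : Bool)
  deriving DecidableEq, Fintype

/-- states -/
inductive St
  | I0
  | I1
  | D (φ : Ph) (e : Fin 6)
  | T (ψ : Option Ph)
  | G
  | R (b : Bool)
  | acc
  deriving DecidableEq, Fintype

/-- the letter of a bit -/
def bl (b : Bool) : Ltr := if b then Ltr.one else Ltr.zero

/-- next mode after the digit `e` -/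
inductive Nxt : Ph → ℕ → Option Ph → Prop
  | s1 (e : ℕ) : Nxt Ph.S e (some Ph.S)
  | s2 (e : ℕ) : 4 ≤ e → Nxt Ph.S e none
  | z0 (b : Bool) : Nxt (Ph.Z b) 0 (some (Ph.Z b))
  | z1 (b : Bool) : Nxt (Ph.Z b) (1 + b.toNat) none

/-- transitions; moves `0`, `1`, `2` are left, stay, right -/
inductive Tr : St → Bool ⊕ Ltr → Bool ⊕ Ltr → St → Fin 3 → Fin 3 → Prop
  | i0 (s t : Bool ⊕ Ltr) : s ≠ Sum.inr Ltr.hash → Tr St.I0 s t St.I0 2 2
  | i0h (t : Bool ⊕ Ltr) : Tr St.I0 (Sum.inr Ltr.hash) t St.I1 1 1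
  | i1 (s t : Bool ⊕ Ltr) : t ≠ Sum.inl true → Tr St.I1 s t St.I1 1 2
  | i1e (s : Bool ⊕ Ltr) (ψ : Option Ph) : (ψ = some Ph.S ∨ ψ = none) →
      Tr St.I1 s (Sum.inl true) (St.T ψ) 1 0
  | d1 (φ : Ph) (e e' : Fin 6) (s t : Bool ⊕ Ltr) : t ≠ Sum.inr Ltr.hash →
      e'.val = e.val + 1 → Tr (St.D φ e) s t (St.D φ e') 1 0
  | d2 (φ : Ph) (e e' : Fin 6) (s t : Bool ⊕ Ltr) : t ≠ Sum.inr Ltr.hash →
      e.val = 5 → e'.val = 0 → Tr (St.D φ e) s t (St.D φ e') 2 0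
  | d3 (φ : Ph) (e : Fin 6) (s : Bool ⊕ Ltr) (ψ : Option Ph) : Nxt φ e.val ψ →
      Tr (St.D φ e) s (Sum.inr Ltr.hash) (St.T ψ) 1 1
  | d4 (b : Bool) (e : Fin 6) (s : Bool ⊕ Ltr) : e.val = 4 + b.toNat →
      Tr (St.D (Ph.Z b) e) s (Sum.inr Ltr.hash) St.acc 1 1
  | t1 (ψ : Option Ph) (s t : Bool ⊕ Ltr) : s ≠ Sum.inr Ltr.hash →
      Tr (St.T ψ) s t (St.T ψ) 0 2
  | t2 (φ : Ph) (e : Fin 6) (t : Bool ⊕ Ltr) : e.val = 0 →
      Tr (St.T (some φ)) (Sum.inr Ltr.hash) t (St.D φ e) 1 1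
  | t3 (t : Bool ⊕ Ltr) : Tr (St.T none) (Sum.inr Ltr.hash) t St.G 0 1
  | g1 (s t : Bool ⊕ Ltr) : t ≠ Sum.inr Ltr.hash → Tr St.G s t St.G 0 0
  | g2 (b : Bool) (t : Bool ⊕ Ltr) : Tr St.G (Sum.inr (bl b)) t (St.R b) 1 1
  | r1 (b : Bool) (s t : Bool ⊕ Ltr) : s ≠ Sum.inr Ltr.hash → Tr (St.R b) s t (St.R b) 2 1
  | r2 (b : Bool) (e : Fin 6) (t : Bool ⊕ Ltr) : e.val = 0 →
      Tr (St.R b) (Sum.inr Ltr.hash) t (St.D (Ph.Z b) e) 1 1

/-- the transition relation of the automaton -/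
def del : Trans St Ltr := fun q s => {p | Tr q (s 0) (s 1) p.1 (p.2 0) (p.2 1)}

/-- the accepted numbers -/
inductive Win (L : ℕ → Bool → Prop) : Option Ph → ℕ → Prop
  | s1 (y : ℕ) : Win L (some Ph.S) (y / 6) → Win L (some Ph.S) y
  | s2 (y : ℕ) : 4 ≤ y % 6 → Win L none (y / 6) → Win L (some Ph.S) y
  | v (y p : ℕ) (b : Bool) : p ≤ y → L p b → Win L (some (Ph.Z b)) (y - p) → Win L none y
  | z0 (b : Bool) (y : ℕ) : y % 6 = 0 → Win L (some (Ph.Z b)) (y / 6) → Win L (some (Ph.Z b)) y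
  | z1 (b : Bool) (y : ℕ) : y % 6 = 1 + b.toNat → Win L none (y / 6) → Win L (some (Ph.Z b)) y
  | z2 (b : Bool) (y : ℕ) : y % 6 = 4 + b.toNat → Win L (some (Ph.Z b)) y

/-- invariant -/
def Inv (N : ℕ) : St → ℤ → ℤ → Prop
  | St.I0, a, b => a = b ∧ a ≤ 0
  | St.I1, a, b => a = 0 ∧ 0 ≤ b ∧ b ≤ N + 1
  | St.D _ _, a, b => 0 ≤ a ∧ 0 ≤ b
  | St.T _, a, b => 0 ≤ a ∧ 0 ≤ b
  | St.G, a, b => a ≤ -1 ∧ 0 ≤ b
  | St.R _, a, b => a ≤ 0 ∧ 0 ≤ b
  | St.acc, _, _ => True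

/-- meaning of a configuration -/
def Sem (L : ℕ → Bool → Prop) (N : ℕ) : St → ℤ → ℤ → Prop
  | St.I0, _, _ => Win L (some Ph.S) N ∨ Win L none N
  | St.I1, _, _ => Win L (some Ph.S) N ∨ Win L none N
  | St.D φ e, a, b => Win L (some φ) (6 * a + e.val + b).toNat
  | St.T ψ, a, b => Win L ψ (a + b).toNat
  | St.G, a, b => ∃ (p : ℕ) (c : Bool), -1 - a ≤ p ∧ (p : ℤ) ≤ -1 - a + b ∧ L p c ∧
      Win L (some (Ph.Z c)) (b - (p - (-1 - a))).toNat
  | St.R c, _, b => Win L (some (Ph.Z c)) b.toNat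
  | St.acc, _, _ => True

/-- the tape hypotheses -/
structure Tape (T : ℤ → Bool ⊕ Ltr) (n N : ℕ) (L : ℕ → Bool → Prop) : Prop where
  hash : ∀ x, T x = Sum.inr Ltr.hash ↔ x = 0
  right : ∀ x, T x = Sum.inl true ↔ (N : ℤ) + 1 ≤ x
  let1 : ∀ (p : ℕ) (b : Bool), T (-1 - p) = Sum.inr (bl b) ↔ L p b
  let2 : ∀ (p : ℕ) (b : Bool), L p b → p < n

theorem win_nxt (L : ℕ → Bool → Prop) (φ : Ph) (ψ : Option Ph) (Y : ℕ)
    (hn : Nxt φ (Y % 6) ψ) (h : Win L ψ (Y / 6)) : Win L (some φ) Y := by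
  generalize hev : Y % 6 = ev at hn
  cases hn with
  | s1 => exact Win.s1 _ h
  | s2 _ h4 => exact Win.s2 _ (by omega) h
  | z0 b => exact Win.z0 _ _ (by omega) h
  | z1 b => exact Win.z1 _ _ (by omega) h

theorem back (T : ℤ → Bool ⊕ Ltr) (n N : ℕ) (L : ℕ → Bool → Prop) (hT : Tape T n N L)
    (c c' : St × (Fin 2 → ℤ)) (hs : ZS del T (-(n : ℤ) - 1) (N + 1) c c')
    (hi : Inv N c.1 (c.2 0) (c.2 1)) :
    Inv N c'.1 (c'.2 0) (c'.2 1) ∧
      (Sem L N c'.1 (c'.2 0) (c'.2 1) → Sem L N c.1 (c.2 0) (c.2 1)) := by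
  obtain ⟨d, hd, hm⟩ := hs
  have h0 := hm 0
  have h1 := hm 1
  obtain ⟨q, x⟩ := c
  obtain ⟨q', x'⟩ := c'
  simp only at hi h0 h1 ⊢
  have hd' : Tr q (T (x 0)) (T (x 1)) q' (d 0) (d 1) := hd
  generalize hs0 : T (x 0) = s0 at hd'
  generalize hs1 : T (x 1) = s1 at hd'
  generalize hd0 : d 0 = d0 at hd' h0
  generalize hd1 : d 1 = d1 at hd' h1
  cases hd' with
  | i0 s t hs =>
    have hx : x 0 ≠ 0 := fun h => hs (hs0 ▸ (hT.hash _).2 h)
    simp only [Inv, Fin.isValue, Sem] at hi h0 h1 ⊢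
    simp at h0 h1
    exact ⟨by omega, id⟩
  | i0h t =>
    have hx : x 0 = 0 := (hT.hash _).1 hs0
    simp only [Inv, Fin.isValue, Sem] at hi h0 h1 ⊢
    simp at h0 h1
    exact ⟨by omega, id⟩
  | i1 s t hs =>
    simp only [Inv, Fin.isValue, Sem] at hi h0 h1 ⊢
    simp at h0 h1
    exact ⟨by omega, id⟩
  | i1e s ψ hψ =>
    have hx : (N : ℤ) + 1 ≤ x 1 := (hT.right _).1 hs1
    simp only [Inv, Fin.isValue, Sem] at hi h0 h1 ⊢
    simp at h0 h1
    refine ⟨by omega, fun h => ?_⟩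
    have e1 : (x' 0 + x' 1).toNat = N := by omega
    rw [e1] at h
    rcases hψ with rfl | rfl
    · exact Or.inl h
    · exact Or.inr h
  | d1 φ e e' s t ht he =>
    have hx : x 1 ≠ 0 := fun h => ht (hs1 ▸ (hT.hash _).2 h)
    simp only [Inv, Fin.isValue, Sem] at hi h0 h1 ⊢
    simp at h0 h1
    refine ⟨by omega, fun h => ?_⟩
    have e1 : 6 * x' 0 + (e'.val : ℤ) + x' 1 = 6 * x 0 + (e.val : ℤ) + x 1 := by omega
    rw [e1] at h
    exact h
  | d2 φ e e' s t ht he he' =>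
    have hx : x 1 ≠ 0 := fun h => ht (hs1 ▸ (hT.hash _).2 h)
    simp only [Inv, Fin.isValue, Sem] at hi h0 h1 ⊢
    simp at h0 h1
    refine ⟨by omega, fun h => ?_⟩
    have e1 : 6 * x' 0 + (e'.val : ℤ) + x' 1 = 6 * x 0 + (e.val : ℤ) + x 1 := by omega
    rw [e1] at h
    exact h
  | d3 φ e s ψ hn =>
    have hx : x 1 = 0 := (hT.hash _).1 hs1
    simp only [Inv, Fin.isValue, Sem] at hi h0 h1 ⊢
    simp at h0 h1
    refine ⟨by omega, fun h => ?_⟩
    have he := e.isLt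
    have e1 : (6 * x 0 + (e.val : ℤ) + x 1).toNat / 6 = (x' 0 + x' 1).toNat := by omega
    have e2 : (6 * x 0 + (e.val : ℤ) + x 1).toNat % 6 = e.val := by omega
    rw [← e1] at h
    rw [← e2] at hn
    exact win_nxt L φ ψ _ hn h
  | d4 b e s he =>
    have hx : x 1 = 0 := (hT.hash _).1 hs1
    simp only [Inv, Fin.isValue, Sem] at hi h0 h1 ⊢
    simp at h0 h1
    refine ⟨trivial, fun h => ?_⟩
    have he := e.isLt
    exact Win.z2 _ _ (by omega)
  | t1 ψ s t hs =>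
    have hx : x 0 ≠ 0 := fun h => hs (hs0 ▸ (hT.hash _).2 h)
    simp only [Inv, Fin.isValue, Sem] at hi h0 h1 ⊢
    simp at h0 h1
    refine ⟨by omega, fun h => ?_⟩
    have e1 : x' 0 + x' 1 = x 0 + x 1 := by omega
    rw [e1] at h
    exact h
  | t2 φ e t he =>
    have hx : x 0 = 0 := (hT.hash _).1 hs0
    simp only [Inv, Fin.isValue, Sem] at hi h0 h1 ⊢
    simp at h0 h1
    refine ⟨by omega, fun h => ?_⟩
    have e1 : 6 * x' 0 + (e.val : ℤ) + x' 1 = x 0 + x 1 := by omega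
    rw [e1] at h
    exact h
  | t3 t =>
    have hx : x 0 = 0 := (hT.hash _).1 hs0
    simp only [Inv, Fin.isValue, Sem] at hi h0 h1 ⊢
    simp at h0 h1
    refine ⟨by omega, fun h => ?_⟩
    obtain ⟨p, c, hp1, hp2, hL, hw⟩ := h
    have e1 : (x' 1 - ((p : ℤ) - (-1 - x' 0))).toNat = (x 0 + x 1).toNat - p := by omega
    rw [e1] at hw
    exact Win.v _ p c (by omega) hL hw
  | g1 s t ht =>
    have hx : x 1 ≠ 0 := fun h => ht (hs1 ▸ (hT.hash _).2 h)
    simp only [Inv, Fin.isValue, Sem] at hi h0 h1 ⊢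
    simp at h0 h1
    refine ⟨by omega, fun h => ?_⟩
    obtain ⟨p, c, hp1, hp2, hL, hw⟩ := h
    have e1 : x' 1 - ((p : ℤ) - (-1 - x' 0)) = x 1 - ((p : ℤ) - (-1 - x 0)) := by omega
    rw [e1] at hw
    exact ⟨p, c, by omega, by omega, hL, hw⟩
  | g2 b t =>
    simp only [Inv, Fin.isValue, Sem] at hi h0 h1 ⊢
    simp at h0 h1
    refine ⟨by omega, fun h => ?_⟩
    have e0 : ((-1 - x 0).toNat : ℤ) = -1 - x 0 := by omega
    refine ⟨(-1 - x 0).toNat, b, by omega, by omega, ?_, ?_⟩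
    · rw [← hT.let1, e0]
      have : -1 - (-1 - x 0) = x 0 := by ring
      rw [this]; exact hs0
    · rw [e0]
      have : x 1 - (-1 - x 0 - (-1 - x 0)) = x' 1 := by omega
      rw [this]; exact h
  | r1 b s t hs =>
    have hx : x 0 ≠ 0 := fun h => hs (hs0 ▸ (hT.hash _).2 h)
    simp only [Inv, Fin.isValue, Sem] at hi h0 h1 ⊢
    simp at h0 h1
    refine ⟨by omega, fun h => ?_⟩
    have e1 : x' 1 = x 1 := by omega
    rw [e1] at h
    exact h
  | r2 b e t he =>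
    have hx : x 0 = 0 := (hT.hash _).1 hs0
    simp only [Inv, Fin.isValue, Sem] at hi h0 h1 ⊢
    simp at h0 h1
    refine ⟨by omega, fun h => ?_⟩
    have e1 : 6 * x' 0 + (e.val : ℤ) + x' 1 = x 1 := by omega
    rw [e1] at h
    exact h

theorem sound (T : ℤ → Bool ⊕ Ltr) (n N : ℕ) (L : ℕ → Bool → Prop) (hT : Tape T n N L)
    (h : AccZ del St.I0 {St.acc} T (-(n : ℤ) - 1) (N + 1)) :
    Win L (some Ph.S) N ∨ Win L none N := by
  obtain ⟨q, hq, x, hx⟩ := h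
  have key : ∀ c, Relation.ReflTransGen (ZS del T (-(n : ℤ) - 1) (N + 1))
      (St.I0, fun _ => -(n : ℤ) - 1) c →
      Inv N c.1 (c.2 0) (c.2 1) ∧ (Sem L N c.1 (c.2 0) (c.2 1) →
        (Win L (some Ph.S) N ∨ Win L none N)) := by
    intro c hc
    induction hc with
    | refl => exact ⟨⟨rfl, by show -(n : ℤ) - 1 ≤ 0; omega⟩, id⟩
    | tail _ h2 ih =>
      obtain ⟨h3, h4⟩ := back T n N L hT _ _ h2 ih.1
      exact ⟨h3, fun h => ih.2 (h4 h)⟩
  have := (key _ hx).2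
  have hq' : q = St.acc := hq
  subst hq'
  exact this trivial

/-- one step -/
theorem zs (T : ℤ → Bool ⊕ Ltr) (n N : ℕ) (q q' : St) (a b a' b' : ℤ) (d0 d1 : Fin 3)
    (ht : Tr q (T a) (T b) q' d0 d1) (ha : a' + 1 = a + (d0.val : ℤ))
    (hb : b' + 1 = b + (d1.val : ℤ)) (ha1 : -(n : ℤ) - 1 ≤ a') (ha2 : a' ≤ N + 1)
    (hb1 : -(n : ℤ) - 1 ≤ b') (hb2 : b' ≤ N + 1) :
    ZS del T (-(n : ℤ) - 1) (N + 1) (q, ![a, b]) (q', ![a', b']) := by
  refine ⟨![d0, d1], ht, fun i => ?_⟩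
  fin_cases i
  · exact ⟨ha, ha1, ha2⟩
  · exact ⟨hb, hb1, hb2⟩

/-- reachability of acceptance -/
def RA (T : ℤ → Bool ⊕ Ltr) (n N : ℕ) (q : St) (a b : ℤ) : Prop :=
  ∃ x, Relation.ReflTransGen (ZS del T (-(n : ℤ) - 1) (N + 1)) (q, ![a, b]) (St.acc, x)

theorem RA_step (T : ℤ → Bool ⊕ Ltr) (n N : ℕ) (q q' : St) (a b a' b' : ℤ) (d0 d1 : Fin 3)
    (ht : Tr q (T a) (T b) q' d0 d1) (ha : a' + 1 = a + (d0.val : ℤ))
    (hb : b' + 1 = b + (d1.val : ℤ)) (ha1 : -(n : ℤ) - 1 ≤ a') (ha2 : a' ≤ N + 1)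
    (hb1 : -(n : ℤ) - 1 ≤ b') (hb2 : b' ≤ N + 1) (h : RA T n N q' a' b') :
    RA T n N q a b := by
  obtain ⟨x, hx⟩ := h
  exact ⟨x, Relation.ReflTransGen.head (zs T n N q q' a b a' b' d0 d1 ht ha hb ha1 ha2 hb1 hb2) hx⟩

section
variable (T : ℤ → Bool ⊕ Ltr) (n N : ℕ) (L : ℕ → Bool → Prop) (hT : Tape T n N L)
include hT

theorem RA_T (ψ : Option Ph) (a b : ℕ) (hab : a + b ≤ N)
    (h : RA T n N (St.T ψ) 0 ((a + b : ℕ) : ℤ)) : RA T n N (St.T ψ) a b := by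
  induction a generalizing b with
  | zero => simpa using h
  | succ a ih =>
    refine RA_step T n N (St.T ψ) (St.T ψ) _ _ (a : ℤ) ((b + 1 : ℕ) : ℤ) 0 2 ?_ ?_ ?_ ?_ ?_ ?_ ?_
      (ih (b + 1) (by omega) (by
        have : a + (b + 1) = a + 1 + b := by ring
        rw [this]; exact h))
    · refine Tr.t1 _ _ _ ?_
      rw [Ne, hT.hash]
      push_cast; omega
    · simp
    · push_cast; norm_num; ring
    · omega
    · omega
    · omega
    · omega

theorem RA_D (φ : Ph) (a b : ℕ) (e : Fin 6) (e' : Fin 6) (he' : e'.val = (e.val + b) % 6)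
    (hab : a + b ≤ N) (h : RA T n N (St.D φ e') ((a + (e.val + b) / 6 : ℕ) : ℤ) 0) :
    RA T n N (St.D φ e) a b := by
  induction b generalizing a e with
  | zero =>
    have he := e.isLt
    have e1 : e' = e := Fin.ext (by omega)
    have e2 : a + (e.val + 0) / 6 = a := by omega
    rw [e1, e2] at h
    simpa using h
  | succ b ih =>
    have he := e.isLt
    have hne : T (((b + 1 : ℕ)) : ℤ) ≠ Sum.inr Ltr.hash := by
      rw [Ne, hT.hash]; push_cast; omega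
    by_cases h5 : e.val = 5
    · refine RA_step T n N (St.D φ e) (St.D φ 0) _ _ ((a + 1 : ℕ) : ℤ) (b : ℤ) 2 0
        (Tr.d2 _ _ _ _ _ hne h5 rfl) ?_ ?_ ?_ ?_ ?_ ?_
        (ih (a + 1) 0 ?_ (by omega) ?_)
      · push_cast; norm_num; ring
      · simp
      · omega
      · omega
      · omega
      · omega
      · simp only [Fin.val_zero]; omega
      · simp only [Fin.val_zero]
        have : a + 1 + (0 + b) / 6 = a + (e.val + (b + 1)) / 6 := by omega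
        rw [this]; exact h
    · refine RA_step T n N (St.D φ e) (St.D φ ⟨e.val + 1, by omega⟩) _ _ (a : ℤ) (b : ℤ) 1 0
        (Tr.d1 _ _ _ _ _ hne rfl) ?_ ?_ ?_ ?_ ?_ ?_
        (ih a ⟨e.val + 1, by omega⟩ ?_ (by omega) ?_)
      · simp
      · simp
      · omega
      · omega
      · omega
      · omega
      · simp only; omega
      · simp only
        have : a + (e.val + 1 + b) / 6 = a + (e.val + (b + 1)) / 6 := by
          congr 2; ring
        rw [this]; exact h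

theorem RA_R (c : Bool) (a b : ℕ) (ha : a ≤ n) (hb : b ≤ N)
    (h : RA T n N (St.R c) 0 b) : RA T n N (St.R c) (-(a : ℤ)) b := by
  induction a with
  | zero => simpa using h
  | succ a ih =>
    refine RA_step T n N (St.R c) (St.R c) _ _ (-(a : ℤ)) (b : ℤ) 2 1 ?_ ?_ ?_ ?_ ?_ ?_ ?_
      (ih (by omega))
    · refine Tr.r1 _ _ _ ?_
      rw [Ne, hT.hash]
      push_cast; omega
    · push_cast; norm_num; ring
    · simp
    · omega
    · omega
    · omega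
    · omega

theorem RA_G (k j y : ℕ) (hk : k ≤ y) (hkn : k + j ≤ n) (hy : y ≤ N)
    (h : RA T n N St.G (-1 - ((k + j : ℕ) : ℤ)) ((y - k : ℕ) : ℤ)) :
    RA T n N St.G (-1 - (j : ℤ)) y := by
  induction k generalizing j y with
  | zero => simpa using h
  | succ k ih =>
    refine RA_step T n N St.G St.G _ _ (-1 - ((j + 1 : ℕ) : ℤ)) ((y - 1 : ℕ) : ℤ) 0 0
      ?_ ?_ ?_ ?_ ?_ ?_ ?_ (ih (j + 1) (y - 1) (by omega) (by omega) (by omega) ?_)
    · refine Tr.g1 _ _ ?_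
      rw [Ne, hT.hash]
      omega
    · push_cast; norm_num; ring
    · norm_num; omega
    · omega
    · omega
    · omega
    · omega
    · have e1 : k + (j + 1) = k + 1 + j := by ring
      have e2 : y - 1 - k = y - (k + 1) := by omega
      rw [e1, e2]; exact h

/-- start of a mode -/
def SM (ψ : Option Ph) : St × ℤ :=
  match ψ with
  | some φ => (St.D φ 0, 0)
  | none => (St.G, -1)

omit hT in
theorem RA_SM (hT : Tape T n N L) (ψ : Option Ph) (y : ℕ) (hy : y ≤ N)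
    (h : RA T n N (SM ψ).1 (SM ψ).2 y) : RA T n N (St.T ψ) 0 y := by
  have h0 : T 0 = Sum.inr Ltr.hash := (hT.hash 0).2 rfl
  rcases ψ with _ | φ
  · refine RA_step T n N (St.T none) St.G _ _ (-1) (y : ℤ) 0 1 ?_ ?_ ?_ ?_ ?_ ?_ ?_ h
    · rw [h0]; exact Tr.t3 _
    · norm_num
    · simp
    · omega
    · omega
    · omega
    · omega
  · refine RA_step T n N (St.T (some φ)) (St.D φ 0) _ _ 0 (y : ℤ) 1 1 ?_ ?_ ?_ ?_ ?_ ?_ ?_ h
    · rw [h0]; exact Tr.t2 _ _ _ rfl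
    · simp
    · simp
    · omega
    · omega
    · omega
    · omega

/-- end of a division -/
theorem RA_dig (φ : Ph) (ψ : Option Ph) (y : ℕ) (hy : y ≤ N) (hn : Nxt φ (y % 6) ψ)
    (h : RA T n N (SM ψ).1 (SM ψ).2 ((y / 6 : ℕ) : ℤ)) : RA T n N (St.D φ 0) 0 y := by
  have h0 : T 0 = Sum.inr Ltr.hash := (hT.hash 0).2 rfl
  have h1 : RA T n N (St.T ψ) ((y / 6 : ℕ) : ℤ) 0 := by
    have := RA_T T n N L hT ψ (y / 6) 0 (by omega) (by
      simpa using RA_SM T n N L hT ψ (y / 6) (by omega) h)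
    simpa using this
  have h2 : RA T n N (St.D φ ⟨y % 6, by omega⟩) ((y / 6 : ℕ) : ℤ) 0 := by
    refine RA_step T n N (St.D φ ⟨y % 6, by omega⟩) (St.T ψ) _ _ ((y / 6 : ℕ) : ℤ) 0 1 1
      ?_ ?_ ?_ ?_ ?_ ?_ ?_ h1
    · rw [h0]; exact Tr.d3 _ _ _ _ hn
    · simp
    · simp
    · omega
    · omega
    · omega
    · omega
  have := RA_D T n N L hT φ 0 y 0 ⟨y % 6, by omega⟩ (by simp) (by omega) (by simpa using h2)
  simpa using this

theorem complete (ψ : Option Ph) (y : ℕ) (h : Win L ψ y) (hy : y ≤ N) :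
    RA T n N (SM ψ).1 (SM ψ).2 y := by
  have h0 : T 0 = Sum.inr Ltr.hash := (hT.hash 0).2 rfl
  induction h with
  | s1 y _ ih => exact RA_dig T n N L hT _ _ y hy (Nxt.s1 _) (ih (by omega))
  | s2 y h4 _ ih => exact RA_dig T n N L hT _ _ y hy (Nxt.s2 _ h4) (ih (by omega))
  | z0 b y h0 _ ih =>
    exact RA_dig T n N L hT _ _ y hy (by rw [h0]; exact Nxt.z0 _) (ih (by omega))
  | z1 b y h1 _ ih =>
    exact RA_dig T n N L hT _ _ y hy (by rw [h1]; exact Nxt.z1 _) (ih (by omega))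
  | z2 b y h4 =>
    have h2 : RA T n N (St.D (Ph.Z b) ⟨y % 6, by omega⟩) ((y / 6 : ℕ) : ℤ) 0 := by
      refine RA_step T n N (St.D (Ph.Z b) ⟨y % 6, by omega⟩) St.acc _ _ ((y / 6 : ℕ) : ℤ) 0 1 1
        ?_ ?_ ?_ ?_ ?_ ?_ ?_ ⟨_, Relation.ReflTransGen.refl⟩
      · rw [h0]; exact Tr.d4 _ _ _ h4
      · simp
      · simp
      · omega
      · omega
      · omega
      · omega
    have := RA_D T n N L hT (Ph.Z b) 0 y 0 ⟨y % 6, by omega⟩ (by simp) (by omega)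
      (by simpa using h2)
    simpa [SM] using this
  | v y p b hp hL _ ih =>
    have hpn := hT.let2 p b hL
    have h1 : RA T n N (St.D (Ph.Z b) 0) 0 ((y - p : ℕ) : ℤ) := ih (by omega)
    have h2 : RA T n N (St.R b) 0 ((y - p : ℕ) : ℤ) := by
      refine RA_step T n N (St.R b) (St.D (Ph.Z b) 0) _ _ 0 _ 1 1 ?_ ?_ ?_ ?_ ?_ ?_ ?_ h1
      · rw [h0]; exact Tr.r2 _ _ _ rfl
      · simp
      · simp
      · omega
      · omega
      · omega
      · omega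
    have h3 := RA_R T n N L hT b (p + 1) (y - p) (by omega) (by omega) h2
    have h4 : RA T n N St.G (-1 - ((p + 0 : ℕ) : ℤ)) ((y - p : ℕ) : ℤ) := by
      refine RA_step T n N St.G (St.R b) _ _ (-((p + 1 : ℕ) : ℤ)) _ 1 1 ?_ ?_ ?_ ?_ ?_ ?_ ?_ h3
      · rw [Nat.add_zero, (hT.let1 p b).2 hL]; exact Tr.g2 _ _
      · push_cast; norm_num; ring
      · simp
      · omega
      · omega
      · omega
      · omega
    have := RA_G T n N L hT p 0 y hp (by omega) hy h4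
    simpa [SM] using this

theorem nfa_iff :
    AccZ del St.I0 {St.acc} T (-(n : ℤ) - 1) (N + 1) ↔
      (Win L (some Ph.S) N ∨ Win L none N) := by
  constructor
  · exact sound T n N L hT
  · intro h
    have h0 : T 0 = Sum.inr Ltr.hash := (hT.hash 0).2 rfl
    obtain ⟨ψ, hψ, hw⟩ : ∃ ψ, (ψ = some Ph.S ∨ ψ = none) ∧ Win L ψ N := by
      rcases h with h | h
      · exact ⟨_, Or.inl rfl, h⟩
      · exact ⟨_, Or.inr rfl, h⟩
    have h1 := RA_SM T n N L hT ψ N le_rfl (complete T n N L hT ψ N hw le_rfl)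
    have h2 : RA T n N St.I1 0 (N + 1 : ℕ) := by
      refine RA_step T n N St.I1 (St.T ψ) _ _ 0 (N : ℤ) 1 0 ?_ ?_ ?_ ?_ ?_ ?_ ?_ h1
      · rw [(hT.right ((N + 1 : ℕ) : ℤ)).2 (by push_cast; omega)]
        exact Tr.i1e _ _ hψ
      · simp
      · simp
      · omega
      · omega
      · omega
      · omega
    have h3 : ∀ k : ℕ, k ≤ N + 1 → RA T n N St.I1 0 ((N + 1 - k : ℕ) : ℤ) := by
      intro k
      induction k with
      | zero => intro _; exact h2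
      | succ k ih =>
        intro hk
        refine RA_step T n N St.I1 St.I1 _ _ 0 ((N + 1 - k : ℕ) : ℤ) 1 2 ?_ ?_ ?_ ?_ ?_ ?_ ?_
          (ih (by omega))
        · refine Tr.i1 _ _ ?_
          rw [Ne, hT.right]
          omega
        · simp
        · norm_num; omega
        · omega
        · omega
        · omega
        · omega
    have h4 : RA T n N St.I1 0 0 := by
      have := h3 (N + 1) le_rfl
      simpa using this
    have h5 : RA T n N St.I0 0 0 := by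
      refine RA_step T n N St.I0 St.I1 _ _ 0 0 1 1 ?_ ?_ ?_ ?_ ?_ ?_ ?_ h4
      · rw [h0]; exact Tr.i0h _
      · simp
      · simp
      · omega
      · omega
      · omega
      · omega
    have h6 : ∀ k : ℕ, k ≤ n + 1 → RA T n N St.I0 (-(k : ℤ)) (-(k : ℤ)) := by
      intro k
      induction k with
      | zero => intro _; simpa using h5
      | succ k ih =>
        intro hk
        refine RA_step T n N St.I0 St.I0 _ _ (-(k : ℤ)) (-(k : ℤ)) 2 2 ?_ ?_ ?_ ?_ ?_ ?_ ?_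
          (ih (by omega))
        · refine Tr.i0 _ _ ?_
          rw [Ne, hT.hash]
          push_cast; omega
        · push_cast; norm_num; ring
        · push_cast; norm_num; ring
        · omega
        · omega
        · omega
        · omega
    obtain ⟨x, hx⟩ := h6 (n + 1) le_rfl
    refine ⟨St.acc, rfl, x, ?_⟩
    have : (fun _ : Fin 2 => -(n : ℤ) - 1) = ![-((n + 1 : ℕ) : ℤ), -((n + 1 : ℕ) : ℤ)] := by
      funext i
      fin_cases i <;> simp <;> ring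
    rw [this]
    exact hx

end

end Pool.Agent.Lib.MP6fae94
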